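import Mathlib

set_option autoImplicit false

/-!
Cyclic sequences of local minima: the number of elements against the number of ascents.
-/

namespace Pool.Agent.H15.Asc

open Finset

/-- The sequence `n 0, n 1, ..., n m = n 0` of the absolute values of the local minima, the circuit
from `n j` to `n (j+1)` having `k j` odd and `l j` even elements. -/
structure Dat (q b : ℝ) (m : ℕ) (n : ℕ → ℝ) (k l : ℕ → ℕ) : Prop where
  q3 : 3 ≤ q
  b1 : 1 ≤ b
  m1 : 1 ≤ m
  cyc : n m = n 0
  min : ∀ j, n 0 ≤ n j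
  big : ∀ j, 10 * b ≤ n j
  k1 : ∀ j, 1 ≤ k j
  two : ∀ j, (2 : ℝ) ^ k j ≤ q * n j
  endl : ∀ j, 2 ^ l j * n (j + 1) ≤ q ^ k j * n j
  lg : ∀ j, |Real.log (n (j + 1)) - Real.log (n j) + ((k j : ℝ) + l j) * Real.log 2 -
    k j * Real.log q| ≤ 4 * b / n j

/-- lower bounds for linear forms -/
structure Nu (q : ℝ) (ν : ℝ → ℝ) : Prop where
  pos : ∀ x, 1 ≤ x → 0 < ν x
  le_one : ∀ x, 1 ≤ x → ν x ≤ 1
  anti : ∀ x y, 1 ≤ x → x ≤ y → ν y ≤ ν x
  low : ∀ k s : ℕ, 1 ≤ k → ν k ≤ |(s : ℝ) * Real.log 2 - k * Real.log q|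

variable {q b : ℝ} {m : ℕ} {n : ℕ → ℝ} {k l : ℕ → ℕ} {ν : ℝ → ℝ}

/-- the number of digits -/
noncomputable def Dg (q : ℝ) (n : ℕ → ℝ) (j : ℕ) : ℝ := Real.log (n j) + Real.log q

/-- growth factor -/
noncomputable def Gf (q : ℝ) : ℝ := 1 + 2 * Real.log q

/-- the number of ascents before `j` -/
noncomputable def up (n : ℕ → ℝ) (j : ℕ) : ℕ := ((range j).filter fun i => n i < n (i + 1)).card

theorem log2_ge : (1 / 2 : ℝ) ≤ Real.log 2 := by
  have := Real.log_two_gt_d9; linarith

theorem log3_ge : (1 : ℝ) ≤ Real.log 3 := by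
  rw [Real.le_log_iff_exp_le (by norm_num)]
  have := Real.exp_one_lt_d9
  linarith

namespace Dat

theorem logq (h : Dat q b m n k l) : 1 ≤ Real.log q :=
  log3_ge.trans (Real.log_le_log (by norm_num) h.q3)

theorem n1 (h : Dat q b m n k l) (j : ℕ) : 10 ≤ n j := by
  have := h.big j
  have := h.b1
  linarith

theorem logn (h : Dat q b m n k l) (j : ℕ) : 0 ≤ Real.log (n j) :=
  Real.log_nonneg (by have := h.n1 j; linarith)

theorem Dg1 (h : Dat q b m n k l) (j : ℕ) : 1 ≤ Dg q n j := by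
  have h1 := h.logn j
  have h2 := h.logq
  unfold Dg; linarith

theorem k_le (h : Dat q b m n k l) (j : ℕ) : (k j : ℝ) ≤ 2 * Dg q n j := by
  have h1 := Real.log_le_log (by positivity) (h.two j)
  have hn := h.n1 j
  have hq := h.q3
  rw [Real.log_pow, Real.log_mul (by linarith) (by linarith)] at h1
  have h2 := log2_ge
  have h3 : (0 : ℝ) ≤ k j := Nat.cast_nonneg _
  unfold Dg
  nlinarith

theorem log_step (h : Dat q b m n k l) (j : ℕ) :
    l j * Real.log 2 + Real.log (n (j + 1)) ≤ k j * Real.log q + Real.log (n j) := by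
  have hn := h.n1 j
  have hn' := h.n1 (j + 1)
  have hq := h.q3
  have h1 := Real.log_le_log (by positivity) (h.endl j)
  rw [Real.log_mul (by positivity) (by linarith), Real.log_mul (by positivity) (by linarith),
    Real.log_pow, Real.log_pow] at h1
  exact h1

theorem G1 (h : Dat q b m n k l) : 1 ≤ Gf q := by
  have := h.logq
  unfold Gf; linarith

theorem grow (h : Dat q b m n k l) (j : ℕ) : Dg q n (j + 1) ≤ Gf q * Dg q n j := by
  have h1 := h.log_step j
  have h2 := h.k_le j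
  have h3 := h.logq
  have h4 : 0 ≤ (l j : ℝ) * Real.log 2 := by
    have := log2_ge
    have : (0 : ℝ) ≤ l j := Nat.cast_nonneg _
    positivity
  have h5 : (k j : ℝ) * Real.log q ≤ 2 * Dg q n j * Real.log q :=
    mul_le_mul_of_nonneg_right h2 (by linarith)
  unfold Gf
  unfold Dg at *
  linarith

theorem len_le (h : Dat q b m n k l) (j : ℕ) : (k j : ℝ) + l j ≤ 4 * Gf q * Dg q n j := by
  have h1 := h.log_step j
  have h2 := h.k_le j
  have h3 := h.logq
  have h4 := h.logn (j + 1)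
  have h5 : (k j : ℝ) * Real.log q ≤ 2 * Dg q n j * Real.log q :=
    mul_le_mul_of_nonneg_right h2 (by linarith)
  have h6 := log2_ge
  have h7 : (0 : ℝ) ≤ l j := Nat.cast_nonneg _
  have h8 : (l j : ℝ) * (1 / 2) ≤ l j * Real.log 2 := mul_le_mul_of_nonneg_left h6 h7
  have h9 : Real.log (n j) ≤ Dg q n j := by unfold Dg; linarith
  have h10 := h.Dg1 j
  unfold Gf
  nlinarith

/-- a circuit without ascent goes down by a definite amount -/
theorem desc (h : Dat q b m n k l) (hν : Nu q ν) (j : ℕ)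
    (hc : 8 * b / n j ≤ ν (2 * Dg q n j)) (hj : n (j + 1) ≤ n j) :
    Real.log (n (j + 1)) ≤ Real.log (n j) - ν (2 * Dg q n j) / 2 := by
  have h1 := h.lg j
  have h2 := hν.low (k j) (k j + l j) (h.k1 j)
  have hk1 : (1 : ℝ) ≤ k j := by exact_mod_cast h.k1 j
  have h3 := hν.anti (k j) (2 * Dg q n j) hk1 (h.k_le j)
  have h4 : Real.log (n (j + 1)) ≤ Real.log (n j) :=
    Real.log_le_log (by have := h.n1 (j + 1); linarith) hj
  have h5 : 4 * b / n j ≤ ν (2 * Dg q n j) / 2 := by
    have e : 8 * b / n j = 2 * (4 * b / n j) := by ring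
    linarith
  have hpos := hν.pos (2 * Dg q n j) (by have := h.Dg1 j; linarith)
  push_cast at h2
  generalize ν (2 * Dg q n j) = w at *
  obtain ⟨L, hL⟩ : ∃ L, L = ((k j : ℝ) + l j) * Real.log 2 - k j * Real.log q := ⟨_, rfl⟩
  rw [← hL] at h2
  rw [abs_le] at h1
  obtain ⟨h6, h7⟩ := h1
  have h8 : w ≤ |L| := h3.trans h2
  have h9 : -(w / 2) ≤ L := by linarith
  rcases abs_cases L with ⟨h10, h11⟩ | ⟨h10, h11⟩
  · linarith
  · linarith

theorem up_succ (n : ℕ → ℝ) (j : ℕ) : up n (j + 1) = up n j + if n j < n (j + 1) then 1 else 0 := by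
  unfold up
  rw [Finset.range_add_one, Finset.filter_insert]
  split_ifs with hc
  · rw [Finset.card_insert_of_notMem (by simp)]
  · rfl

theorem up_mono (n : ℕ → ℝ) {i j : ℕ} (hij : i ≤ j) : up n i ≤ up n j := by
  unfold up
  exact Finset.card_le_card (Finset.filter_subset_filter _ (Finset.range_mono hij))

theorem Dg_le (h : Dat q b m n k l) (j : ℕ) : Dg q n j ≤ Gf q ^ up n j * Dg q n 0 := by
  induction j with
  | zero => simp [up]
  | succ j ih =>
    rw [up_succ]
    by_cases hc : n j < n (j + 1)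
    · rw [if_pos hc, pow_succ]
      have h1 := h.grow j
      have h2 := h.G1
      calc Dg q n (j + 1) ≤ Gf q * Dg q n j := h1
        _ ≤ Gf q * (Gf q ^ up n j * Dg q n 0) := mul_le_mul_of_nonneg_left ih (by linarith)
        _ = _ := by ring
    · rw [if_neg hc, add_zero]
      refine le_trans ?_ ih
      unfold Dg
      have := Real.log_le_log (by have := h.n1 (j + 1); linarith) (not_lt.1 hc)
      linarith

/-- The final quantity -/
noncomputable def Dm (q : ℝ) (n : ℕ → ℝ) (m : ℕ) : ℝ := Gf q ^ up n m * Dg q n 0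

theorem Dg_le_Dm (h : Dat q b m n k l) {j : ℕ} (hj : j ≤ m) : Dg q n j ≤ Dm q n m := by
  refine (h.Dg_le j).trans ?_
  unfold Dm
  have h1 := h.Dg1 0
  exact mul_le_mul_of_nonneg_right (pow_le_pow_right₀ h.G1 (up_mono n hj)) (by linarith)

theorem Dm1 (h : Dat q b m n k l) : 1 ≤ Dm q n m := (h.Dg1 0).trans (h.Dg_le_Dm (Nat.zero_le _))

/-- the number of circuits -/
theorem m_le (h : Dat q b m n k l) (hν : Nu q ν) (hc : ∀ j, 8 * b / n j ≤ ν (2 * Dg q n j)) :
    (m : ℝ) * ν (2 * Dm q n m) ≤ 4 * up n m * (Gf q * Dm q n m) := by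
  have hD1 := h.Dm1
  have hG1 := h.G1
  set w := ν (2 * Dm q n m) with hw
  have hw0 : 0 < w := hν.pos _ (by linarith)
  have hw1 : w ≤ 1 := hν.le_one _ (by linarith)
  have key : ∀ j, j ≤ m → Real.log (n j) - Real.log (n 0) ≤
      up n j * (Gf q * Dm q n m) - ((j : ℝ) - up n j) * (w / 2) := by
    intro j
    induction j with
    | zero => intro _; simp [up]
    | succ j ih =>
      intro hj
      have h1 := ih (by omega)
      have hDj := h.Dg_le_Dm (show j ≤ m by omega)
      have hDj' := h.Dg_le_Dm hj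
      rw [up_succ]
      by_cases hcj : n j < n (j + 1)
      · rw [if_pos hcj]
        push_cast
        have h2 : Real.log (n (j + 1)) - Real.log (n j) ≤ Gf q * Dm q n m := by
          have h3 := h.logn j
          have h4 : Real.log (n (j + 1)) ≤ Dg q n (j + 1) := by
            unfold Dg; have := h.logq; linarith
          nlinarith
        nlinarith
      · rw [if_neg hcj, add_zero]
        push_cast
        have h2 := h.desc hν j (hc j) (not_lt.1 hcj)
        have h3 : w ≤ ν (2 * Dg q n j) := hν.anti _ _ (by have := h.Dg1 j; linarith) (by linarith)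
        nlinarith
  have h1 := key m le_rfl
  rw [h.cyc, sub_self] at h1
  have h2 : (0 : ℝ) ≤ up n m := Nat.cast_nonneg _
  have h3 : (1 : ℝ) ≤ Gf q * Dm q n m := by nlinarith
  nlinarith

/-- **the number of elements** -/
theorem P_le (h : Dat q b m n k l) (hν : Nu q ν) (hc : ∀ j, 8 * b / n j ≤ ν (2 * Dg q n j)) :
    (∑ j ∈ range m, ((k j : ℝ) + l j)) * ν (2 * Dm q n m) ≤
      16 * up n m * (Gf q * Dm q n m) ^ 2 := by
  have hD1 := h.Dm1
  have hG1 := h.G1
  have h1 : ∑ j ∈ range m, ((k j : ℝ) + l j) ≤ m * (4 * Gf q * Dm q n m) := by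
    have h2 : ∀ j ∈ range m, ((k j : ℝ) + l j) ≤ 4 * Gf q * Dm q n m := by
      intro j hj
      have h3 := h.len_le j
      have h4 := h.Dg_le_Dm (Finset.mem_range.1 hj).le
      nlinarith
    have h5 := Finset.sum_le_sum h2
    simpa using h5
  have hw0 : 0 < ν (2 * Dm q n m) := hν.pos _ (by linarith)
  have h2 := h.m_le hν hc
  have h3 : (m : ℝ) * (4 * Gf q * Dm q n m) * ν (2 * Dm q n m) =
      (m * ν (2 * Dm q n m)) * (4 * (Gf q * Dm q n m)) := by ring
  have h4 : (0 : ℝ) ≤ 4 * (Gf q * Dm q n m) := by positivity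
  calc (∑ j ∈ range m, ((k j : ℝ) + l j)) * ν (2 * Dm q n m)
      ≤ m * (4 * Gf q * Dm q n m) * ν (2 * Dm q n m) := mul_le_mul_of_nonneg_right h1 hw0.le
    _ = (m * ν (2 * Dm q n m)) * (4 * (Gf q * Dm q n m)) := h3
    _ ≤ (4 * up n m * (Gf q * Dm q n m)) * (4 * (Gf q * Dm q n m)) :=
        mul_le_mul_of_nonneg_right h2 h4
    _ = _ := by ring

/-- **the least element** -/
theorem n_le (h : Dat q b m n k l) (hν : Nu q ν) :
    n 0 * ν (∑ j ∈ range m, ((k j : ℝ) + l j)) ≤ 4 * b * ∑ j ∈ range m, ((k j : ℝ) + l j) := by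
  have hm1 : (1 : ℝ) ≤ m := by exact_mod_cast h.m1
  have hn0 := h.n1 0
  have hb := h.b1
  -- total form
  have h1 : ∀ j, |Real.log (n j) - Real.log (n 0) +
      (∑ i ∈ range j, ((k i : ℝ) + l i)) * Real.log 2 - (∑ i ∈ range j, (k i : ℝ)) * Real.log q| ≤
      j * (4 * b / n 0) := by
    intro j
    induction j with
    | zero => simp
    | succ j ih =>
      rw [Finset.sum_range_succ, Finset.sum_range_succ]
      have h2 := h.lg j
      have h3 : 4 * b / n j ≤ 4 * b / n 0 :=
        div_le_div_of_nonneg_left (by positivity) (by linarith) (h.min j)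
      have e : Real.log (n (j + 1)) - Real.log (n 0) +
          (∑ i ∈ range j, ((k i : ℝ) + l i) + (k j + l j)) * Real.log 2 -
          (∑ i ∈ range j, (k i : ℝ) + k j) * Real.log q =
          (Real.log (n j) - Real.log (n 0) + (∑ i ∈ range j, ((k i : ℝ) + l i)) * Real.log 2 -
            (∑ i ∈ range j, (k i : ℝ)) * Real.log q) +
          (Real.log (n (j + 1)) - Real.log (n j) + ((k j : ℝ) + l j) * Real.log 2 -
            k j * Real.log q) := by ring
      rw [e]
      refine (abs_add_le _ _).trans ?_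
      push_cast
      linarith
  have h2 := h1 m
  rw [h.cyc, sub_self, zero_add] at h2
  have hK1 : 1 ≤ ∑ i ∈ range m, k i := by
    have h3 : ∀ i ∈ range m, 1 ≤ k i := fun i _ => h.k1 i
    have h4 := Finset.sum_le_sum h3
    simp only [Finset.sum_const, Finset.card_range, smul_eq_mul, mul_one] at h4
    exact h.m1.trans h4
  have h3 := hν.low (∑ i ∈ range m, k i) (∑ i ∈ range m, (k i + l i)) hK1
  push_cast at h3
  have hK1' : (1 : ℝ) ≤ ∑ i ∈ range m, (k i : ℝ) := by exact_mod_cast hK1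
  have hKP : ∑ i ∈ range m, (k i : ℝ) ≤ ∑ i ∈ range m, ((k i : ℝ) + l i) :=
    Finset.sum_le_sum fun i _ => by
      have : (0 : ℝ) ≤ l i := Nat.cast_nonneg _
      linarith
  have hmP : (m : ℝ) ≤ ∑ i ∈ range m, ((k i : ℝ) + l i) := by
    have h4 : ∀ i ∈ range m, (1 : ℝ) ≤ (k i : ℝ) + l i := fun i _ => by
      have h5 : (1 : ℝ) ≤ k i := by exact_mod_cast h.k1 i
      have : (0 : ℝ) ≤ l i := Nat.cast_nonneg _
      linarith
    have h5 := Finset.sum_le_sum h4
    simpa using h5
  have h4 := hν.anti _ _ hK1' hKP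
  have h5 : ν (∑ i ∈ range m, ((k i : ℝ) + l i)) ≤ m * (4 * b / n 0) := h4.trans (h3.trans h2)
  have h6 : (m : ℝ) * (4 * b / n 0) = m * (4 * b) / n 0 := by ring
  rw [h6, le_div_iff₀ (by linarith)] at h5
  nlinarith

end Dat

end Pool.Agent.H15.Asc
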