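import Mathlib

set_option autoImplicit false

/-!
Periodic orbits of the map `x / 2`, `(q x + d) / 2` on the integers: the circuits.
-/

namespace Pool.Agent.H15.Asc

open Finset

/-- `x / 2` for even `x`, `(q x + d) / 2` for odd `x`. -/
def T (q d x : ℤ) : ℤ := if x % 2 = 0 then x / 2 else (q * x + d) / 2

theorem T_even {q d x : ℤ} (h : x % 2 = 0) : 2 * T q d x = x := by
  unfold T; rw [if_pos h]; omega

theorem T_odd {q d x : ℤ} (hq : q % 2 = 1) (hd : d % 2 = 1) (h : x % 2 = 1) :
    2 * T q d x = q * x + d := by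
  unfold T; rw [if_neg (by omega)]
  have : (q * x + d) % 2 = 0 := by
    rw [Int.add_emod, Int.mul_emod, hq, h, hd]; norm_num
  omega

theorem par (x : ℤ) : x % 2 = 0 ∨ x % 2 = 1 := by omega

/-- periodic orbits all whose elements have absolute value at least `N |d|`. -/
structure Orb (q d : ℤ) (a : ℕ → ℤ) (p : ℕ) (N : ℝ) : Prop where
  q3 : 3 ≤ q
  qodd : q % 2 = 1
  dodd : d % 2 = 1
  step : ∀ i, a (i + 1) = T q d (a i)
  per : ∀ i, a (i + p) = a i
  pos : 1 ≤ p
  N10 : 10 ≤ N
  big : ∀ i, N * |(d : ℝ)| ≤ |(a i : ℝ)|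

/-- the number of odd elements among the first ones -/
def od (a : ℕ → ℤ) : ℕ → ℕ
  | 0 => 0
  | i + 1 => od a i + (a i % 2).toNat

/-- an even element followed by an odd one: the next element is a local minimum -/
def Lm (a : ℕ → ℤ) (i : ℕ) : Prop := a i % 2 = 0 ∧ a (i + 1) % 2 = 1

instance (a : ℕ → ℤ) : DecidablePred (Lm a) := fun i => by unfold Lm; infer_instance

/-- contribution of one element to the linear form -/
noncomputable def fc (d : ℤ) (z : ℤ) : ℝ := if z % 2 = 1 then |(d : ℝ)| / |(z : ℝ)| else 0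

/-- the sum of the contributions -/
noncomputable def FS (d : ℤ) (a : ℕ → ℤ) (k : ℕ) : ℝ := ∑ i ∈ range k, fc d (a i)

theorem od_even {a : ℕ → ℤ} {i : ℕ} (hi : a i % 2 = 0) : od a (i + 1) = od a i := by
  have : od a (i + 1) = od a i + (a i % 2).toNat := rfl
  rw [this, hi]; rfl

theorem od_odd {a : ℕ → ℤ} {i : ℕ} (hi : a i % 2 = 1) : od a (i + 1) = od a i + 1 := by
  have : od a (i + 1) = od a i + (a i % 2).toNat := rfl
  rw [this, hi]; rfl

section

variable {q d : ℤ} {a : ℕ → ℤ} {p : ℕ} {N : ℝ}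

theorem Orb.d1 (h : Orb q d a p N) : 1 ≤ |(d : ℝ)| := by
  have h1 : d ≠ 0 := by have := h.dodd; omega
  have h2 : 1 ≤ |d| := Int.one_le_abs h1
  exact_mod_cast h2

theorem Orb.ten (h : Orb q d a p N) (i : ℕ) : 10 * |(d : ℝ)| ≤ |(a i : ℝ)| :=
  (mul_le_mul_of_nonneg_right h.N10 (abs_nonneg _)).trans (h.big i)

theorem Orb.even_step (h : Orb q d a p N) {i : ℕ} (hi : a i % 2 = 0) : 2 * a (i + 1) = a i := by
  rw [h.step]; exact T_even hi

theorem Orb.odd_step (h : Orb q d a p N) {i : ℕ} (hi : a i % 2 = 1) :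
    2 * a (i + 1) = q * a i + d := by
  rw [h.step]; exact T_odd h.qodd h.dodd hi

theorem Orb.even_abs (h : Orb q d a p N) {i : ℕ} (hi : a i % 2 = 0) :
    2 * |(a (i + 1) : ℝ)| = |(a i : ℝ)| := by
  have h1 := h.even_step hi
  have h2 : (2 : ℝ) * (a (i + 1) : ℝ) = (a i : ℝ) := by exact_mod_cast h1
  rw [← h2, abs_mul]; norm_num

theorem Orb.odd_abs (h : Orb q d a p N) {i : ℕ} (hi : a i % 2 = 1) :
    2 * |(a (i + 1) : ℝ)| ≤ q * |(a i : ℝ)| + |(d : ℝ)| ∧
      q * |(a i : ℝ)| - |(d : ℝ)| ≤ 2 * |(a (i + 1) : ℝ)| := by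
  have h1 := h.odd_step hi
  have h2 : (2 : ℝ) * (a (i + 1) : ℝ) = q * (a i : ℝ) + d := by exact_mod_cast h1
  have h3 : 2 * |(a (i + 1) : ℝ)| = |q * (a i : ℝ) + d| := by
    rw [← h2, abs_mul]; norm_num
  have hq : (0 : ℝ) < q := by have := h.q3; exact_mod_cast (by omega : 0 < q)
  have h4 : |(q : ℝ) * (a i : ℝ)| = q * |(a i : ℝ)| := by rw [abs_mul, abs_of_pos hq]
  rw [h3, ← h4]
  constructor
  · exact abs_add_le _ _
  · have := abs_sub_abs_le_abs_sub ((q : ℝ) * (a i : ℝ)) (-(d : ℝ))
    rw [abs_neg, sub_neg_eq_add] at this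
    exact this

theorem Orb.step_log (h : Orb q d a p N) (i : ℕ) :
    |Real.log |(a (i + 1) : ℝ)| - Real.log |(a i : ℝ)| + Real.log 2 -
      ((a i % 2).toNat : ℝ) * Real.log q| ≤ fc d (a i) := by
  have hd1 := h.d1
  have hn := h.ten i
  have hn' := h.ten (i + 1)
  have hq3 : (3 : ℝ) ≤ q := by exact_mod_cast h.q3
  set n : ℝ := |(a i : ℝ)| with hnd
  set n' : ℝ := |(a (i + 1) : ℝ)| with hnd'
  set b : ℝ := |(d : ℝ)| with hb
  rcases par (a i) with h1 | h1
  · have h2 := h.even_abs h1
    rw [← hnd, ← hnd'] at h2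
    rw [h1]
    have h3 : Real.log n = Real.log 2 + Real.log n' := by
      rw [← h2, Real.log_mul (by norm_num) (by linarith)]
    unfold fc
    rw [if_neg (by omega), h3]
    simp
  · obtain ⟨h2, h2'⟩ := h.odd_abs h1
    rw [← hnd, ← hnd', ← hb] at h2 h2'
    rw [h1]
    unfold fc
    rw [if_pos h1, ← hnd, ← hb]
    have hn0 : 0 < n := by linarith
    have hqn : 0 < q * n := by positivity
    have hqn3 : 3 * n ≤ q * n := mul_le_mul_of_nonneg_right hq3 hn0.le
    have h3 : Real.log (2 * n') = Real.log 2 + Real.log n' :=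
      Real.log_mul (by norm_num) (by linarith)
    have h4 : Real.log (q * n) = Real.log q + Real.log n :=
      Real.log_mul (by linarith) (by linarith)
    have e : Real.log n' - Real.log n + Real.log 2 - (((1 : ℤ).toNat : ℕ) : ℝ) * Real.log q =
        Real.log (2 * n') - Real.log (q * n) := by
      rw [h3, h4]; simp; ring
    rw [e, abs_le]
    constructor
    · -- lower bound
      have h5 := Real.log_le_sub_one_of_pos (show 0 < q * n / (2 * n') by
        apply div_pos hqn; linarith)
      rw [Real.log_div (by linarith) (by linarith)] at h5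
      have h6 : q * n / (2 * n') - 1 ≤ b / n := by
        rw [div_sub_one (by linarith), div_le_div_iff₀ (by linarith) hn0]
        nlinarith
      linarith
    · have h5 := Real.log_le_sub_one_of_pos (show 0 < 2 * n' / (q * n) by
        apply div_pos _ hqn; linarith)
      rw [Real.log_div (by linarith) (by linarith)] at h5
      have h6 : 2 * n' / (q * n) - 1 ≤ b / n := by
        rw [div_sub_one (by linarith), div_le_div_iff₀ hqn hn0]
        nlinarith
      linarith

theorem Orb.sum_log (h : Orb q d a p N) (s k : ℕ) :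
    |Real.log |(a (s + k) : ℝ)| - Real.log |(a s : ℝ)| + k * Real.log 2 -
      ((od a (s + k) : ℝ) - od a s) * Real.log q| ≤ FS d a (s + k) - FS d a s := by
  induction k with
  | zero => simp
  | succ k ih =>
    have h1 := h.step_log (s + k)
    have h2 : FS d a (s + (k + 1)) = FS d a (s + k) + fc d (a (s + k)) := by
      unfold FS; rw [show s + (k + 1) = s + k + 1 by ring, Finset.sum_range_succ]
    have h3 : (od a (s + (k + 1)) : ℝ) = od a (s + k) + ((a (s + k) % 2).toNat : ℝ) := by
      have : od a (s + (k + 1)) = od a (s + k) + (a (s + k) % 2).toNat := rfl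
      rw [this]; push_cast; ring
    rw [h2, h3, show s + (k + 1) = s + k + 1 by ring]
    push_cast
    have e : Real.log |(a (s + k + 1) : ℝ)| - Real.log |(a s : ℝ)| + ((k : ℝ) + 1) * Real.log 2 -
        ((od a (s + k) : ℝ) + ((a (s + k) % 2).toNat : ℝ) - od a s) * Real.log q =
        (Real.log |(a (s + k) : ℝ)| - Real.log |(a s : ℝ)| + k * Real.log 2 -
          ((od a (s + k) : ℝ) - od a s) * Real.log q) +
        (Real.log |(a (s + k + 1) : ℝ)| - Real.log |(a (s + k) : ℝ)| + Real.log 2 -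
          ((a (s + k) % 2).toNat : ℝ) * Real.log q) := by ring
    rw [e]
    refine (abs_add_le _ _).trans ?_
    linarith

/-- a circuit: `k` odd elements from `t` on, then `l` even ones -/
structure Cir (a : ℕ → ℤ) (t k l : ℕ) : Prop where
  k1 : 1 ≤ k
  l1 : 1 ≤ l
  odd : ∀ j, j < k → a (t + j) % 2 = 1
  even : ∀ j, j < l → a (t + k + j) % 2 = 0

theorem Cir.od_eq {t k l : ℕ} (c : Cir a t k l) : od a (t + k + l) = od a t + k := by
  have h1 : ∀ j, j ≤ k → od a (t + j) = od a t + j := by
    intro j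
    induction j with
    | zero => intro _; rfl
    | succ j ih =>
      intro hj
      rw [show t + (j + 1) = t + j + 1 by ring, od_odd (c.odd j (by omega)), ih (by omega)]
      ring
  have h2 : ∀ j, j ≤ l → od a (t + k + j) = od a (t + k) := by
    intro j
    induction j with
    | zero => intro _; rfl
    | succ j ih =>
      intro hj
      rw [show t + k + (j + 1) = t + k + j + 1 by ring, od_even (c.even j (by omega)), ih (by omega)]
  rw [h2 l le_rfl, h1 k le_rfl]

/-- the number of odd elements of a circuit -/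
theorem Orb.two_pow_le (h : Orb q d a p N) {t k l : ℕ} (c : Cir a t k l) :
    (2 : ℝ) ^ k ≤ q * |(a t : ℝ)| := by
  have hpow : ∀ j, j ≤ k → (2 : ℤ) ^ j * ((q - 2) * a (t + j) + d) = q ^ j * ((q - 2) * a t + d) := by
    intro j
    induction j with
    | zero => intro _; simp
    | succ j ih =>
      intro hj
      have h1 := ih (by omega)
      have h2 := h.odd_step (c.odd j (by omega))
      rw [show t + (j + 1) = t + j + 1 by ring]
      calc (2 : ℤ) ^ (j + 1) * ((q - 2) * a (t + j + 1) + d)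
          = 2 ^ j * ((q - 2) * (2 * a (t + j + 1)) + 2 * d) := by ring
        _ = q * (2 ^ j * ((q - 2) * a (t + j) + d)) := by rw [h2]; ring
        _ = _ := by rw [h1]; ring
  have hk := hpow k le_rfl
  have hdvd : (2 : ℤ) ^ k ∣ (q - 2) * a t + d := by
    have h1 : (2 : ℤ) ^ k ∣ q ^ k * ((q - 2) * a t + d) := ⟨_, hk.symm⟩
    have hcop : IsCoprime ((2 : ℤ) ^ k) (q ^ k) := by
      apply IsCoprime.pow
      have hq := h.qodd
      refine ⟨-(q / 2), 1, ?_⟩
      omega
    exact hcop.dvd_of_dvd_mul_left h1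
  have hd1 := h.d1
  have hn := h.ten t
  have hq3 : (3 : ℝ) ≤ q := by exact_mod_cast h.q3
  have habs : |(d : ℝ)| ≤ |(a t : ℝ)| := by linarith
  have e1 : |((q : ℝ) - 2) * (a t : ℝ)| = (q - 2) * |(a t : ℝ)| := by
    rw [abs_mul, abs_of_nonneg (by linarith)]
  have hne : (q - 2) * a t + d ≠ 0 := by
    intro h0
    have h1 : ((q : ℝ) - 2) * (a t : ℝ) = -(d : ℝ) := by
      have : (((q - 2) * a t + d : ℤ) : ℝ) = 0 := by rw [h0]; simp
      push_cast at this
      linarith
    rw [h1, abs_neg] at e1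
    have h2 : 1 * |(a t : ℝ)| ≤ (q - 2) * |(a t : ℝ)| :=
      mul_le_mul_of_nonneg_right (by linarith) (abs_nonneg _)
    linarith
  have h1 : (2 : ℤ) ^ k ≤ |(q - 2) * a t + d| := Int.le_of_dvd (abs_pos.2 hne) ((dvd_abs _ _).2 hdvd)
  have h3 : (2 : ℝ) ^ k ≤ |((q : ℝ) - 2) * (a t : ℝ) + d| := by exact_mod_cast h1
  have h4 := abs_add_le (((q : ℝ) - 2) * (a t : ℝ)) (d : ℝ)
  rw [e1] at h4
  nlinarith

theorem Orb.le_mul (h : Orb q d a p N) (i : ℕ) : |(a (i + 1) : ℝ)| ≤ q * |(a i : ℝ)| := by
  have hd1 := h.d1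
  have hn := h.ten i
  have hq3 : (3 : ℝ) ≤ q := by exact_mod_cast h.q3
  have h5 : 3 * |(a i : ℝ)| ≤ q * |(a i : ℝ)| := mul_le_mul_of_nonneg_right hq3 (abs_nonneg _)
  have h0 := abs_nonneg (a i : ℝ)
  rcases par (a i) with h1 | h1
  · have h2 := h.even_abs h1
    linarith
  · obtain ⟨h2, -⟩ := h.odd_abs h1
    linarith

/-- the end of a circuit -/
theorem Orb.end_le (h : Orb q d a p N) {t k l : ℕ} (c : Cir a t k l) :
    2 ^ l * |(a (t + k + l) : ℝ)| ≤ q ^ k * |(a t : ℝ)| := by
  have hq3 : (3 : ℝ) ≤ q := by exact_mod_cast h.q3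
  have h1 : ∀ j, |(a (t + j) : ℝ)| ≤ q ^ j * |(a t : ℝ)| := by
    intro j
    induction j with
    | zero => simp
    | succ j ih =>
      have h2 := h.le_mul (t + j)
      rw [show t + (j + 1) = t + j + 1 by ring]
      calc |(a (t + j + 1) : ℝ)| ≤ q * |(a (t + j) : ℝ)| := h2
        _ ≤ q * (q ^ j * |(a t : ℝ)|) := mul_le_mul_of_nonneg_left ih (by linarith)
        _ = _ := by ring
  have h3 : ∀ j, j ≤ l → 2 ^ j * |(a (t + k + j) : ℝ)| = |(a (t + k) : ℝ)| := by
    intro j
    induction j with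
    | zero => intro _; simp
    | succ j ih =>
      intro hj
      have h4 := ih (by omega)
      have h5 := h.even_abs (c.even j (by omega))
      rw [show t + k + (j + 1) = t + k + j + 1 by ring, pow_succ]
      calc 2 ^ j * 2 * |(a (t + k + j + 1) : ℝ)| = 2 ^ j * (2 * |(a (t + k + j + 1) : ℝ)|) := by ring
        _ = _ := by rw [h5, h4]
  rw [h3 l le_rfl]
  exact h1 k

/-- the contributions of a circuit -/
theorem Orb.FS_le (h : Orb q d a p N) {t k l : ℕ} (c : Cir a t k l) :
    FS d a (t + k + l) - FS d a t ≤ 4 * |(d : ℝ)| / |(a t : ℝ)| := by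
  have hd1 := h.d1
  have hq3 : (3 : ℝ) ≤ q := by exact_mod_cast h.q3
  have key : ∀ j, j ≤ k → FS d a (t + j) - FS d a t ≤
      4 * |(d : ℝ)| / |(a t : ℝ)| - 4 * |(d : ℝ)| / |(a (t + j) : ℝ)| := by
    intro j
    induction j with
    | zero => intro _; simp
    | succ j ih =>
      intro hj
      have h1 := ih (by omega)
      have h2 := c.odd j (by omega)
      obtain ⟨-, h3⟩ := h.odd_abs h2
      have h4 : FS d a (t + (j + 1)) = FS d a (t + j) + fc d (a (t + j)) := by
        unfold FS; rw [show t + (j + 1) = t + j + 1 by ring, Finset.sum_range_succ]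
      have h5 : fc d (a (t + j)) = |(d : ℝ)| / |(a (t + j) : ℝ)| := by
        unfold fc; rw [if_pos h2]
      have hn := h.ten (t + j)
      have hn' := h.ten (t + j + 1)
      rw [h4, h5, show t + (j + 1) = t + j + 1 by ring]
      have h6 : |(d : ℝ)| / |(a (t + j) : ℝ)| ≤
          4 * |(d : ℝ)| / |(a (t + j) : ℝ)| - 4 * |(d : ℝ)| / |(a (t + j + 1) : ℝ)| := by
        generalize |(a (t + j) : ℝ)| = x at *
        generalize |(a (t + j + 1) : ℝ)| = y at *
        generalize |(d : ℝ)| = b at *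
        have hx : 0 < x := by linarith
        have hy : 0 < y := by linarith
        have hxy : 4 * x ≤ 3 * y := by nlinarith
        rw [div_sub_div _ _ hx.ne' hy.ne', div_le_div_iff₀ hx (by positivity)]
        have hb : 0 < b := by linarith
        have : 0 ≤ b * x * (3 * y - 4 * x) := by
          apply mul_nonneg (by positivity); linarith
        nlinarith
      linarith
  have key2 : ∀ j, j ≤ l → FS d a (t + k + j) = FS d a (t + k) := by
    intro j
    induction j with
    | zero => intro _; simp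
    | succ j ih =>
      intro hj
      have h2 := c.even j (by omega)
      have h4 : FS d a (t + k + (j + 1)) = FS d a (t + k + j) + fc d (a (t + k + j)) := by
        unfold FS; rw [show t + k + (j + 1) = t + k + j + 1 by ring, Finset.sum_range_succ]
      have h5 : fc d (a (t + k + j)) = 0 := by
        unfold fc; rw [if_neg (by omega)]
      rw [h4, h5, ih (by omega), add_zero]
  rw [key2 l le_rfl]
  have h1 := key k le_rfl
  have h2 : 0 ≤ 4 * |(d : ℝ)| / |(a (t + k) : ℝ)| := by positivity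
  linarith

/-- from one local minimum to the next -/
theorem Orb.cir (h : Orb q d a p N) {s s' : ℕ} (hss : s < s') (hs : Lm a s) (hs' : Lm a s')
    (hno : ∀ i, s < i → i < s' → ¬ Lm a i) :
    ∃ k l, Cir a (s + 1) k l ∧ s + 1 + k + l = s' + 1 := by
  have hex : ∃ j, a (s + (j + 1)) % 2 = 0 := ⟨s' - s - 1, by
    rw [show s + (s' - s - 1 + 1) = s' by omega]; exact hs'.1⟩
  classical
  obtain ⟨k, hk1, hk2⟩ : ∃ k, a (s + (k + 1)) % 2 = 0 ∧ ∀ j < k, a (s + (j + 1)) % 2 = 1 := by
    refine ⟨Nat.find hex, Nat.find_spec hex, fun j hj => ?_⟩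
    have := Nat.find_min hex hj
    omega
  have hk0 : 1 ≤ k := by
    by_contra hcon
    have h1 : k = 0 := by omega
    rw [h1] at hk1
    have := hs.2
    simp at hk1
    omega
  have hks : s + (k + 1) ≤ s' := by
    by_contra hcon
    have h1 := hk2 (s' - s - 1) (by omega)
    rw [show s + (s' - s - 1 + 1) = s' by omega] at h1
    have := hs'.1
    omega
  have heven : ∀ j, s + (k + 1) + j ≤ s' → a (s + (k + 1) + j) % 2 = 0 := by
    intro j
    induction j with
    | zero => intro _; exact hk1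
    | succ j ih =>
      intro hj
      have h1 := ih (by omega)
      rcases par (a (s + (k + 1) + j + 1)) with h2 | h2
      · exact h2
      · exact absurd ⟨h1, h2⟩ (hno _ (by omega) (by omega))
  refine ⟨k, s' - s - k, ⟨hk0, by omega, ?_, ?_⟩, by omega⟩
  · intro j hj
    have := hk2 j hj
    rwa [show s + 1 + j = s + (j + 1) by ring]
  · intro j hj
    have := heven j (by omega)
    rwa [show s + 1 + k + j = s + (k + 1) + j by ring]

end

end Pool.Agent.H15.Asc
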