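import Mathlib
import Pool.Agent.H15.Asc.Orbit
import Pool.Agent.H15.Asc.Core

set_option autoImplicit false

/-!
The chain of the local minima of a periodic orbit.
-/

namespace Pool.Agent.H15.Asc

open Finset

variable {q d : ℤ} {a : ℕ → ℤ} {p : ℕ} {N : ℝ}

/-- the times of the local minima -/
noncomputable def sq (a : ℕ → ℤ) : ℕ → ℕ := Nat.nth (Lm a)

theorem Orb.inf (h : Orb q d a p N) (h0 : Lm a 0) : (∀ j, Lm a (j * p)) ∧
    (Set.ofPred (Lm a)).Infinite := by
  have hper : ∀ i, Lm a (i + p) ↔ Lm a i := by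
    intro i
    unfold Lm
    rw [h.per, show i + p + 1 = i + 1 + p by ring, h.per]
  have hmul : ∀ j, Lm a (j * p) := by
    intro j
    induction j with
    | zero => simpa using h0
    | succ j ih => rw [Nat.succ_mul, hper]; exact ih
  refine ⟨hmul, Set.infinite_of_not_bddAbove ?_⟩
  rintro ⟨B, hB⟩
  have h1 := hB (hmul (B + 1))
  have := h.pos
  nlinarith

theorem Orb.sq_mem (h : Orb q d a p N) (h0 : Lm a 0) (j : ℕ) : Lm a (sq a j) :=
  Nat.nth_mem_of_infinite (h.inf h0).2 j

theorem Orb.sq_mono (h : Orb q d a p N) (h0 : Lm a 0) : StrictMono (sq a) :=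
  Nat.nth_strictMono (h.inf h0).2

theorem sq_zero (h0 : Lm a 0) : sq a 0 = 0 := Nat.nth_zero_of_zero h0

theorem Orb.sq_count (h : Orb q d a p N) (h0 : Lm a 0) : sq a (Nat.count (Lm a) p) = p := by
  apply Nat.nth_count
  have := (h.inf h0).1 1
  rwa [one_mul] at this

theorem Orb.sq_no (h : Orb q d a p N) (h0 : Lm a 0) (j i : ℕ) (h1 : sq a j < i)
    (h2 : i < sq a (j + 1)) : ¬ Lm a i := by
  intro h3
  have := Nat.le_nth_of_lt_nth_succ h2 h3
  exact absurd h1 (not_lt.2 this)

/-- **The chain of local minima.** -/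
theorem Orb.chain (h : Orb q d a p N) (h0 : Lm a 0) (hmin : ∀ i, |a 1| ≤ |a i|) :
    ∃ k l : ℕ → ℕ, Dat q |(d : ℝ)| (Nat.count (Lm a) p) (fun j => |(a (sq a j + 1) : ℝ)|) k l ∧
      ∑ j ∈ range (Nat.count (Lm a) p), ((k j : ℝ) + l j) = p := by
  have hblock : ∀ j, ∃ k l, Cir a (sq a j + 1) k l ∧ sq a j + 1 + k + l = sq a (j + 1) + 1 :=
    fun j => h.cir ((h.sq_mono h0) (Nat.lt_succ_self j)) (h.sq_mem h0 j)
    (h.sq_mem h0 (j + 1)) (fun i => h.sq_no h0 j i)
  choose k l hc he using hblock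
  set m := Nat.count (Lm a) p with hm
  have hm1 : 1 ≤ m := by
    rcases Nat.eq_zero_or_pos m with h1 | h1
    · have h2 := h.sq_count h0
      rw [← hm, h1, sq_zero h0] at h2
      have := h.pos
      omega
    · exact h1
  have hs0 := sq_zero h0
  have hsm := h.sq_count h0
  rw [← hm] at hsm
  refine ⟨k, l, ⟨?_, h.d1, hm1, ?_, ?_, ?_, fun j => (hc j).k1, ?_, ?_, ?_⟩, ?_⟩
  · exact_mod_cast h.q3
  · change |(a (sq a m + 1) : ℝ)| = |(a (sq a 0 + 1) : ℝ)|
    rw [hsm, hs0, show p + 1 = 0 + 1 + p by ring, h.per]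
  · intro j
    change |(a (sq a 0 + 1) : ℝ)| ≤ |(a (sq a j + 1) : ℝ)|
    rw [hs0]
    exact_mod_cast hmin _
  · intro j
    exact h.ten _
  · intro j
    exact h.two_pow_le (hc j)
  · intro j
    have h1 := h.end_le (hc j)
    rw [he j] at h1
    exact h1
  · intro j
    have h1 := h.sum_log (sq a j + 1) (k j + l j)
    have h2 := h.FS_le (hc j)
    have h3 := (hc j).od_eq
    rw [he j] at h2 h3
    rw [show sq a j + 1 + (k j + l j) = sq a j + 1 + k j + l j by ring, he j, h3] at h1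
    push_cast at h1
    refine le_trans (le_of_eq ?_) (h1.trans h2)
    congr 1
    ring
  · have h1 : ∀ j, ∑ i ∈ range j, ((k i : ℝ) + l i) = sq a j := by
      intro j
      induction j with
      | zero => simp [hs0]
      | succ j ih =>
        rw [Finset.sum_range_succ, ih]
        have h2 := he j
        have h3 : sq a j + k j + l j = sq a (j + 1) := by omega
        rw [← h3]; push_cast; ring
    rw [h1, hsm]

end Pool.Agent.H15.Asc
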