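import Mathlib
import Pool.Agent.H15.Asc.Chain

set_option autoImplicit false

/-!
Cycles as finite sets and their ascents.
-/

namespace Pool.Agent.H15.Asc

open Finset

/-- `Z` is a periodic orbit of `f`. -/
def IsCycle (f : ℤ → ℤ) (Z : Finset ℤ) : Prop :=
  ∃ x : ℤ, ∃ p : ℕ, 1 ≤ p ∧ f^[p] x = x ∧ Z = (Finset.range p).image (fun i => f^[i] x)

/-- `x` is a local minimum of `Z`: an odd element which is the image of an even one. -/
def IsMin (Z : Finset ℤ) (x : ℤ) : Prop := x ∈ Z ∧ x % 2 = 1 ∧ 2 * x ∈ Z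

open Classical in
/-- the local minima at which the sequence of local minima increases -/
noncomputable def ascents (f : ℤ → ℤ) (Z : Finset ℤ) : Finset ℤ :=
  Z.filter fun x => IsMin Z x ∧ ∃ j, 1 ≤ j ∧ IsMin Z (f^[j] x) ∧
    (∀ i, 1 ≤ i → i < j → ¬ IsMin Z (f^[i] x)) ∧ |x| < |f^[j] x|

theorem mem_ascents {f : ℤ → ℤ} {Z : Finset ℤ} {x : ℤ} : x ∈ ascents f Z ↔ x ∈ Z ∧ IsMin Z x ∧
    ∃ j, 1 ≤ j ∧ IsMin Z (f^[j] x) ∧ (∀ i, 1 ≤ i → i < j → ¬ IsMin Z (f^[i] x)) ∧
      |x| < |f^[j] x| := by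
  classical
  unfold ascents
  exact Finset.mem_filter

variable {f : ℤ → ℤ} {Z W : Finset ℤ}

theorem IsCycle.closed (hZ : IsCycle f Z) {y : ℤ} (hy : y ∈ Z) (j : ℕ) : f^[j] y ∈ Z := by
  obtain ⟨x, p, hp, hx, rfl⟩ := hZ
  rw [mem_image] at hy ⊢
  obtain ⟨i, hi, rfl⟩ := hy
  refine ⟨(j + i) % p, mem_range.2 (Nat.mod_lt _ hp), ?_⟩
  rw [← Function.iterate_add_apply]
  have hper : Function.IsPeriodicPt f p x := hx
  exact hper.iterate_mod_apply _

theorem IsCycle.gen (hZ : IsCycle f Z) {y z : ℤ} (hy : y ∈ Z) (hz : z ∈ Z) : ∃ j, f^[j] y = z := by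
  obtain ⟨x, p, hp, hx, rfl⟩ := hZ
  rw [mem_image] at hy hz
  obtain ⟨i, hi, rfl⟩ := hy
  obtain ⟨k, hk, rfl⟩ := hz
  rw [mem_range] at hi hk
  refine ⟨k + (p - i), ?_⟩
  rw [← Function.iterate_add_apply, show k + (p - i) + i = k + p by omega,
    Function.iterate_add_apply, hx]

theorem IsCycle.com (hZ : IsCycle f Z) : ∃ p, 1 ≤ p ∧ ∀ y ∈ Z, f^[p] y = y := by
  obtain ⟨x, p, hp, hx, rfl⟩ := hZ
  refine ⟨p, hp, fun y hy => ?_⟩
  rw [mem_image] at hy
  obtain ⟨i, hi, rfl⟩ := hy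
  rw [← Function.iterate_add_apply, add_comm, Function.iterate_add_apply, hx]

theorem IsCycle.eq_of_mem (hZ : IsCycle f Z) (hW : IsCycle f W) {x : ℤ} (h1 : x ∈ Z) (h2 : x ∈ W) :
    Z = W := by
  ext y
  constructor
  · intro hy
    obtain ⟨j, rfl⟩ := hZ.gen h1 hy
    exact hW.closed h2 j
  · intro hy
    obtain ⟨j, rfl⟩ := hW.gen h2 hy
    exact hZ.closed h1 j

theorem IsCycle.inj (hZ : IsCycle f Z) {x y : ℤ} (h1 : x ∈ Z) (h2 : y ∈ Z) (h : f x = f y) :
    x = y := by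
  obtain ⟨p, hp, h3⟩ := hZ.com
  obtain ⟨r, rfl⟩ : ∃ r, p = r + 1 := ⟨p - 1, by omega⟩
  have e1 := h3 x h1
  have e2 := h3 y h2
  rw [Function.iterate_succ_apply] at e1 e2
  rw [← e1, ← e2, h]

theorem IsCycle.pred (hZ : IsCycle f Z) {y : ℤ} (hy : y ∈ Z) : ∃ x ∈ Z, f x = y := by
  obtain ⟨p, hp, h⟩ := hZ.com
  obtain ⟨r, rfl⟩ : ∃ r, p = r + 1 := ⟨p - 1, by omega⟩
  refine ⟨f^[r] y, hZ.closed hy r, ?_⟩
  rw [← Function.iterate_succ_apply' f r y]
  exact h y hy

theorem IsCycle.nonempty (hZ : IsCycle f Z) : Z.Nonempty := by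
  obtain ⟨x, p, hp, hx, rfl⟩ := hZ
  exact ⟨x, mem_image.2 ⟨0, mem_range.2 hp, rfl⟩⟩

theorem IsCycle.card_eq (hZ : IsCycle f Z) {x : ℤ} (hx : x ∈ Z) :
    Z.card = Function.minimalPeriod f x := by
  obtain ⟨q, hq1, hq2⟩ := hZ.com
  have hperq : Function.IsPeriodicPt f q x := hq2 x hx
  have hp1 : 0 < Function.minimalPeriod f x := hperq.minimalPeriod_pos (by omega)
  have e : Z = (range (Function.minimalPeriod f x)).image (fun i => f^[i] x) := by
    ext y
    rw [mem_image]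
    constructor
    · intro hy
      obtain ⟨j, rfl⟩ := hZ.gen hx hy
      refine ⟨j % Function.minimalPeriod f x, mem_range.2 (Nat.mod_lt _ hp1), ?_⟩
      exact Function.iterate_mod_minimalPeriod_eq
    · rintro ⟨j, -, rfl⟩
      exact hZ.closed hx j
  have h2 : Set.InjOn (fun i => f^[i] x) ((range (Function.minimalPeriod f x) : Finset ℕ) : Set ℕ) := by
    intro i hi j hj hij
    rw [mem_coe, mem_range] at hi hj
    exact (Function.iterate_eq_iterate_iff_of_lt_minimalPeriod hi hj).1 hij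
  conv_lhs => rw [e]
  rw [Finset.card_image_of_injOn h2, card_range]

/-- only finitely many cycles have a small element -/
theorem finite_small (f : ℤ → ℤ) (R : ℝ) :
    {Z : Finset ℤ | IsCycle f Z ∧ ∃ x ∈ Z, |(x : ℝ)| < R}.Finite := by
  have h1 : {Z : Finset ℤ | IsCycle f Z ∧ ∃ x ∈ Z, |(x : ℝ)| < R} ⊆
      ⋃ x ∈ (Set.Icc (-⌈R⌉) ⌈R⌉ : Set ℤ), {Z : Finset ℤ | IsCycle f Z ∧ x ∈ Z} := by
    rintro Z ⟨hZ, x, hx, hxR⟩
    rw [Set.mem_iUnion₂]
    refine ⟨x, ?_, hZ, hx⟩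
    have h2 : (|x| : ℝ) ≤ ⌈R⌉ := hxR.le.trans (Int.le_ceil R)
    have h3 : |x| ≤ ⌈R⌉ := by exact_mod_cast h2
    rw [abs_le] at h3
    exact h3
  refine Set.Finite.subset ?_ h1
  refine Set.Finite.biUnion (Set.finite_Icc _ _) fun x _ => ?_
  apply Set.Subsingleton.finite
  rintro Z ⟨hZ, hx⟩ W ⟨hW, hx'⟩
  exact hZ.eq_of_mem hW hx hx'

/-- **A cycle whose elements are all large**, as a chain of local minima. -/
theorem IsCycle.dat {q d : ℤ} (hZ : IsCycle (T q d) Z) (hq3 : 3 ≤ q) (hq : q % 2 = 1)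
    (hd : d % 2 = 1) {N : ℝ} (hN : 10 ≤ N) (hbig : ∀ x ∈ Z, N * |(d : ℝ)| ≤ |(x : ℝ)|) :
    ∃ (m : ℕ) (n : ℕ → ℝ) (k l : ℕ → ℕ), Dat q |(d : ℝ)| m n k l ∧
      ∑ j ∈ range m, ((k j : ℝ) + l j) = Z.card ∧ up n m ≤ (ascents (T q d) Z).card ∧
      (∃ x ∈ Z, n 0 = |(x : ℝ)|) ∧ ∀ j, N * |(d : ℝ)| ≤ n j := by
  obtain ⟨x1, hx1, hmin⟩ := Finset.exists_min_image Z (fun x => |x|) hZ.nonempty
  obtain ⟨x0, hx0, h01⟩ := hZ.pred hx1
  have hd0 : d ≠ 0 := by omega
  have hd1 : 1 ≤ |d| := Int.one_le_abs hd0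
  have hd1R : 1 ≤ |(d : ℝ)| := by exact_mod_cast hd1
  have hbig' : ∀ x ∈ Z, 10 * |d| ≤ |x| := by
    intro x hx
    have h1 := hbig x hx
    have h2 : 10 * |(d : ℝ)| ≤ N * |(d : ℝ)| := mul_le_mul_of_nonneg_right hN (by linarith)
    have h3 : 10 * |(d : ℝ)| ≤ |(x : ℝ)| := h2.trans h1
    exact_mod_cast h3
  have hb1 := hbig' x1 hx1
  have hT1 := hmin _ (hZ.closed hx1 1)
  have hm0 := hmin _ hx0
  have e1 : (T q d)^[1] x1 = T q d x1 := rfl
  rw [e1] at hT1
  have hodd : x1 % 2 = 1 := by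
    rcases par x1 with h | h
    · have := T_even (q := q) (d := d) h
      exfalso
      rcases abs_cases x1 with ⟨h1, h2⟩ | ⟨h1, h2⟩ <;>
        rcases abs_cases (T q d x1) with ⟨h3, h4⟩ | ⟨h3, h4⟩ <;> omega
    · exact h
  have hev : x0 % 2 = 0 := by
    rcases par x0 with h | h
    · exact h
    · exfalso
      have h5 := T_odd hq hd h
      rw [h01] at h5
      have h6 : |q * x0| = q * |x0| := by rw [abs_mul, abs_of_pos (by omega)]
      have h7 : |q * x0| ≤ |2 * x1| + |d| := by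
        have : q * x0 = 2 * x1 - d := by omega
        rw [this]; exact abs_sub _ _
      have h8 : |2 * x1| = 2 * |x1| := by rw [abs_mul]; rfl
      have h9 : 3 * |x0| ≤ q * |x0| := mul_le_mul_of_nonneg_right hq3 (abs_nonneg _)
      omega
  set a : ℕ → ℤ := fun i => (T q d)^[i] x0 with ha
  set p := Function.minimalPeriod (T q d) x0 with hp
  obtain ⟨r, hr1, hr2⟩ := hZ.com
  have hperr : Function.IsPeriodicPt (T q d) r x0 := hr2 x0 hx0
  have hp1 : 1 ≤ p := hperr.minimalPeriod_pos hr1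
  have hpp : (T q d)^[p] x0 = x0 := Function.isPeriodicPt_minimalPeriod (T q d) x0
  have hmem : ∀ i, a i ∈ Z := fun i => hZ.closed hx0 i
  have horb : Orb q d a p N :=
    { q3 := hq3
      qodd := hq
      dodd := hd
      step := fun i => Function.iterate_succ_apply' (T q d) i x0
      per := fun i => by
        change (T q d)^[i + p] x0 = (T q d)^[i] x0
        rw [Function.iterate_add_apply, hpp]
      pos := hp1
      N10 := hN
      big := fun i => hbig _ (hmem i) }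
  have ha1 : a 1 = x1 := h01
  have ha0 : a 0 = x0 := rfl
  have h0 : Lm a 0 := ⟨by rw [ha0]; exact hev, by rw [ha1]; exact hodd⟩
  obtain ⟨k, l, hdat, hsum⟩ := horb.chain h0 (fun i => by rw [ha1]; exact hmin _ (hmem i))
  refine ⟨_, _, k, l, hdat, ?_, ?_, ⟨x1, hx1, ?_⟩, fun j => hbig _ (hmem _)⟩
  · rw [hsum, hZ.card_eq hx0]
  · -- the ascents
    unfold up
    refine Finset.card_le_card_of_injOn (fun j => a (sq a j + 1)) ?_ ?_
    · intro j hj
      have hj' : j ∈ (range (Nat.count (Lm a) p)).filter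
        (fun i => |(a (sq a i + 1) : ℝ)| < |(a (sq a (i + 1) + 1) : ℝ)|) := hj
      rw [mem_filter, mem_range] at hj'
      obtain ⟨hjm, hjlt⟩ := hj'
      have hmono := horb.sq_mono h0
      have hlt : sq a j < sq a (j + 1) := hmono (Nat.lt_succ_self j)
      have hm1 := horb.sq_mem h0 j
      have hm2 := horb.sq_mem h0 (j + 1)
      have hmin' : ∀ i, Lm a i → IsMin Z (a (i + 1)) := by
        intro i hi
        refine ⟨hmem _, hi.2, ?_⟩
        rw [horb.even_step hi.1]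
        exact hmem i
      have hshift : ∀ i, (T q d)^[i] (a (sq a j + 1)) = a (sq a j + 1 + i) := by
        intro i
        change (T q d)^[i] ((T q d)^[sq a j + 1] x0) = (T q d)^[sq a j + 1 + i] x0
        rw [← Function.iterate_add_apply, add_comm]
      change a (sq a j + 1) ∈ ascents (T q d) Z
      rw [mem_ascents]
      refine ⟨hmem _, hmin' _ hm1, sq a (j + 1) - sq a j, by omega, ?_, ?_, ?_⟩
      · rw [hshift, show sq a j + 1 + (sq a (j + 1) - sq a j) = sq a (j + 1) + 1 by omega]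
        exact hmin' _ hm2
      · intro i hi1 hi2 hi3
        rw [hshift] at hi3
        obtain ⟨h5, h6, h7⟩ := hi3
        have h8 : T q d (2 * a (sq a j + 1 + i)) = a (sq a j + 1 + i) := by
          have := T_even (q := q) (d := d) (x := 2 * a (sq a j + 1 + i)) (by omega)
          omega
        have h9 : T q d (a (sq a j + i)) = a (sq a j + 1 + i) := by
          rw [← horb.step, show sq a j + i + 1 = sq a j + 1 + i by ring]
        have h10 := hZ.inj h7 (hmem (sq a j + i)) (h8.trans h9.symm)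
        refine horb.sq_no h0 j (sq a j + i) (by omega) (by omega) ⟨by omega, ?_⟩
        rw [show sq a j + i + 1 = sq a j + 1 + i by ring]
        exact h6
      · rw [hshift, show sq a j + 1 + (sq a (j + 1) - sq a j) = sq a (j + 1) + 1 by omega]
        exact_mod_cast hjlt
    · intro i hi j hj hij
      have hmono := horb.sq_mono h0
      have hlt : ∀ j, j ∈ (range (Nat.count (Lm a) p)).filter
        (fun i => |(a (sq a i + 1) : ℝ)| < |(a (sq a (i + 1) + 1) : ℝ)|) → sq a j < p := by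
        intro j hj
        rw [mem_filter, mem_range] at hj
        have := hmono hj.1
        rwa [horb.sq_count h0] at this
      have h5 : 2 * a (sq a i + 1) = a (sq a i) := horb.even_step (horb.sq_mem h0 i).1
      have h6 : 2 * a (sq a j + 1) = a (sq a j) := horb.even_step (horb.sq_mem h0 j).1
      have h7 : a (sq a i) = a (sq a j) := by
        rw [← h5, ← h6]
        have : a (sq a i + 1) = a (sq a j + 1) := hij
        rw [this]
      have h8 := (Function.iterate_eq_iterate_iff_of_lt_minimalPeriod (hlt i hi) (hlt j hj)).1 h7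
      exact hmono.injective h8
  · change |(a (sq a 0 + 1) : ℝ)| = _
    rw [sq_zero h0, zero_add, ha1]

end Pool.Agent.H15.Asc
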