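import Mathlib
import Pool.Agent.H15.Asc.Cycle

set_option autoImplicit false

/-!
From chains of local minima to all cycles.
-/

namespace Pool.Agent.H15.Asc

open Finset

/-- the lower bound beats every constant divided by `z` -/
def Dec (ν : ℝ → ℝ) : Prop := ∀ K : ℝ, ∃ z0 : ℝ, ∀ z, z0 ≤ z → K / z ≤ ν (2 * Real.log z)

/-- the condition on the size of the elements -/
theorem exists_N {q : ℤ} (hq3 : 3 ≤ q) {ν : ℝ → ℝ} (hdec : Dec ν) (d : ℤ) :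
    ∃ N : ℝ, 10 ≤ N ∧ ∀ (m : ℕ) (n : ℕ → ℝ) (k l : ℕ → ℕ), Dat q |(d : ℝ)| m n k l →
      (∀ j, N * |(d : ℝ)| ≤ n j) → ∀ j, 8 * |(d : ℝ)| / n j ≤ ν (2 * Dg q n j) := by
  obtain ⟨z0, hz0⟩ := hdec (8 * |(d : ℝ)| * q)
  refine ⟨max 10 z0, le_max_left _ _, fun m n k l h hbig j => ?_⟩
  have hq : (3 : ℝ) ≤ q := h.q3
  have hn := h.n1 j
  have hd := h.b1
  have h1 := hbig j
  have h2 : z0 ≤ n j := by
    have h3 : max 10 z0 * 1 ≤ max 10 z0 * |(d : ℝ)| :=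
      mul_le_mul_of_nonneg_left hd (le_trans (by norm_num) (le_max_left _ _))
    have h4 := le_max_right (10 : ℝ) z0
    linarith
  have h3 : z0 ≤ q * n j := by nlinarith
  have h4 := hz0 _ h3
  have e1 : 8 * |(d : ℝ)| * q / (q * n j) = 8 * |(d : ℝ)| / n j := by
    have : (q : ℝ) ≠ 0 := by linarith
    have : n j ≠ 0 := by linarith
    field_simp
  have e2 : Real.log (q * n j) = Dg q n j := by
    unfold Dg
    rw [Real.log_mul (by linarith) (by linarith)]; ring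
  rwa [e1, e2] at h4

/-- lower bound for the number of ascents -/
theorem asc_ge {q : ℤ} (hq3 : 3 ≤ q) (hq : q % 2 = 1) {ν : ℝ → ℝ} (hdec : Dec ν) {d : ℤ}
    (hd : d % 2 = 1) {c C : ℝ} (φ : ℝ → ℝ)
    (hmain : ∀ (m : ℕ) (n : ℕ → ℝ) (k l : ℕ → ℕ), Dat q |(d : ℝ)| m n k l →
      (∀ j, 8 * |(d : ℝ)| / n j ≤ ν (2 * Dg q n j)) →
      c * φ (∑ j ∈ range m, ((k j : ℝ) + l j)) ≤ up n m + C) :
    ∃ C' : ℝ, ∀ Z : Finset ℤ, IsCycle (T q d) Z → c * φ Z.card ≤ (ascents (T q d) Z).card + C' := by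
  obtain ⟨N, hN, hcond⟩ := exists_N hq3 hdec d
  have hfin := finite_small (T q d) (N * |(d : ℝ)|)
  obtain ⟨B, hB⟩ := (hfin.image fun Z => c * φ Z.card).bddAbove
  refine ⟨max B C, fun Z hZ => ?_⟩
  by_cases hs : ∃ x ∈ Z, |(x : ℝ)| < N * |(d : ℝ)|
  · have h1 := hB ⟨Z, ⟨hZ, hs⟩, rfl⟩
    have h2 : (0 : ℝ) ≤ (ascents (T q d) Z).card := Nat.cast_nonneg _
    have h3 := le_max_left B C
    simp only at h1
    linarith
  · push Not at hs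
    obtain ⟨m, n, k, l, h1, h2, h3, -, h5⟩ := hZ.dat hq3 hq hd hN hs
    have h6 := hmain m n k l h1 (hcond m n k l h1 h5)
    rw [h2] at h6
    have h7 : (up n m : ℝ) ≤ (ascents (T q d) Z).card := by exact_mod_cast h3
    have h8 := le_max_right B C
    linarith

/-- finiteness -/
theorem asc_fin {q : ℤ} (hq3 : 3 ≤ q) (hq : q % 2 = 1) {ν : ℝ → ℝ} (hν : Nu q ν) (hdec : Dec ν)
    {d : ℤ} (hd : d % 2 = 1) (M : ℕ)
    (hmain : ∃ P : ℝ, ∀ (m : ℕ) (n : ℕ → ℝ) (k l : ℕ → ℕ), Dat q |(d : ℝ)| m n k l →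
      (∀ j, 8 * |(d : ℝ)| / n j ≤ ν (2 * Dg q n j)) → up n m ≤ M →
      ∑ j ∈ range m, ((k j : ℝ) + l j) ≤ P) :
    {Z : Finset ℤ | IsCycle (T q d) Z ∧ (ascents (T q d) Z).card ≤ M}.Finite := by
  obtain ⟨N, hN, hcond⟩ := exists_N hq3 hdec d
  obtain ⟨P, hP⟩ := hmain
  refine (finite_small (T q d) (max (N * |(d : ℝ)|) (4 * |(d : ℝ)| * P / ν P + 1))).subset ?_
  rintro Z ⟨hZ, hM⟩
  refine ⟨hZ, ?_⟩
  by_cases hs : ∃ x ∈ Z, |(x : ℝ)| < N * |(d : ℝ)|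
  · obtain ⟨x, hx, hxN⟩ := hs
    exact ⟨x, hx, hxN.trans_le (le_max_left _ _)⟩
  · push Not at hs
    obtain ⟨m, n, k, l, h1, h2, h3, ⟨x, hx, hnx⟩, h5⟩ := hZ.dat hq3 hq hd hN hs
    refine ⟨x, hx, lt_of_lt_of_le ?_ (le_max_right _ _)⟩
    have h6 := hP m n k l h1 (hcond m n k l h1 h5) (h3.trans hM)
    have h7 := h1.n_le hν
    have hm1 : (1 : ℝ) ≤ m := by exact_mod_cast h1.m1
    have h4 : ∀ i ∈ range m, (1 : ℝ) ≤ (k i : ℝ) + l i := fun i _ => by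
      have h5 : (1 : ℝ) ≤ k i := by exact_mod_cast h1.k1 i
      have : (0 : ℝ) ≤ l i := Nat.cast_nonneg _
      linarith
    have h5 := Finset.sum_le_sum h4
    simp at h5
    set S := ∑ j ∈ range m, ((k j : ℝ) + l j) with hS
    have hS1 : 1 ≤ S := by linarith
    have hP1 : 1 ≤ P := hS1.trans h6
    have hn0 := h1.n1 0
    have hd1 := h1.b1
    have h8 : ν P ≤ ν S := hν.anti _ _ hS1 h6
    have h9 : 0 < ν P := hν.pos _ hP1
    rw [← hnx]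
    have h10 : n 0 ≤ 4 * |(d : ℝ)| * P / ν P := by
      rw [le_div_iff₀ h9]
      calc n 0 * ν P ≤ n 0 * ν S := mul_le_mul_of_nonneg_left h8 (by linarith)
        _ ≤ 4 * |(d : ℝ)| * S := h7
        _ ≤ _ := mul_le_mul_of_nonneg_left h6 (by positivity)
    linarith

end Pool.Agent.H15.Asc
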