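import Mathlib
import Pool.Agent.H15.Asc.Core
import Pool.Agent.H15.Lin.Form

set_option autoImplicit false

/-!
The lower bound for `|s log 2 - k log 3|`.
-/

namespace Pool.Agent.H15.Asc

noncomputable def nu3 (x : ℝ) : ℝ := 1 / (2 ^ 13 * (86 * x) ^ 49)

theorem nu3_pos {x : ℝ} (hx : 1 ≤ x) : 0 < nu3 x := by unfold nu3; positivity

theorem nu3_anti {x y : ℝ} (hx : 1 ≤ x) (hxy : x ≤ y) : nu3 y ≤ nu3 x := by
  unfold nu3
  apply one_div_le_one_div_of_le (by positivity)
  apply mul_le_mul_of_nonneg_left _ (by norm_num)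
  exact pow_le_pow_left₀ (by linarith) (by linarith) _

theorem nu3_small {x : ℝ} (hx : 1 ≤ x) : nu3 x ≤ 1 / 100 := by
  refine (nu3_anti le_rfl hx).trans ?_
  unfold nu3
  norm_num

theorem log2_bd : 0.6931471 ≤ Real.log 2 ∧ Real.log 2 ≤ 0.6931472 := by
  have h1 := Real.log_two_gt_d9
  have h2 := Real.log_two_lt_d9
  constructor <;> linarith

theorem log3_bd : 1.09 ≤ Real.log 3 ∧ Real.log 3 ≤ 1.11 := by
  obtain ⟨h1, h2⟩ := log2_bd
  constructor
  · -- 3 ^ 12 > 2 ^ 19
    have h3 : Real.log ((2 : ℝ) ^ 19) ≤ Real.log (3 ^ 12) :=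
      Real.log_le_log (by norm_num) (by norm_num)
    rw [Real.log_pow, Real.log_pow] at h3
    push_cast at h3
    linarith
  · have h3 : Real.log ((3 : ℝ) ^ 5) ≤ Real.log (2 ^ 8) :=
      Real.log_le_log (by norm_num) (by norm_num)
    rw [Real.log_pow, Real.log_pow] at h3
    push_cast at h3
    linarith

theorem nu3_low (k s : ℕ) (hk : 1 ≤ k) : nu3 k ≤ |(s : ℝ) * Real.log 2 - k * Real.log 3| := by
  have hk1 : (1 : ℝ) ≤ k := by exact_mod_cast hk
  obtain ⟨b1, b2⟩ := log2_bd
  obtain ⟨b3, b4⟩ := log3_bd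
  rcases Nat.lt_or_ge s (2 * k) with h1 | h1
  · rcases Nat.lt_or_ge (3 * k) (2 * s) with h2 | h2
    · have hsk : k + 1 ≤ s := by omega
      have hskR : (k : ℝ) + 1 ≤ s := by exact_mod_cast hsk
      have hs2 : (s : ℝ) ≤ 2 * k := by exact_mod_cast h1.le
      have hc1 : (1 : ℝ) < 204800 / 117649 := by norm_num
      have hex : ∃ r : ℕ, 49 * ((s : ℝ) - k) ≤ (204800 / 117649) ^ r := by
        obtain ⟨r, hr⟩ := pow_unbounded_of_one_lt (49 * ((s : ℝ) - k)) hc1
        exact ⟨r, hr.le⟩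
      classical
      set r := Nat.find hex with hr
      have hspec : 49 * ((s : ℝ) - k) ≤ (204800 / 117649) ^ r := Nat.find_spec hex
      have hr1 : 1 ≤ r := by
        by_contra hcon
        have h3 : r = 0 := by omega
        rw [h3, pow_zero] at hspec
        linarith
      have hlt : ((204800 : ℝ) / 117649) ^ (r - 1) < 49 * ((s : ℝ) - k) := by
        have := Nat.find_min hex (show r - 1 < Nat.find hex by omega)
        exact not_le.1 this
      have hlow := Pool.Agent.H15.Lin.Form.lower r (s : ℤ) (k : ℤ) (by exact_mod_cast h1)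
        (by exact_mod_cast h2) (by push_cast; exact hspec)
      push_cast at hlow
      have h4 : ((204800 : ℝ) / 117649) ^ r ≤ 86 * k := by
        obtain ⟨r', hr'⟩ : ∃ r', r = r' + 1 := ⟨r - 1, by omega⟩
        rw [hr', Nat.add_sub_cancel] at hlt
        rw [hr', pow_succ]
        have h5 : (49 : ℝ) * ((s : ℝ) - k) ≤ 49 * k := by linarith
        nlinarith
      have h5 : (2 : ℝ) ^ (39 * r) ≤ (86 * k) ^ 49 := by
        calc (2 : ℝ) ^ (39 * r) = (2 ^ 39) ^ r := by rw [pow_mul]
          _ ≤ ((204800 / 117649) ^ 49) ^ r := pow_le_pow_left₀ (by positivity) (by norm_num) r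
          _ = ((204800 / 117649) ^ r) ^ 49 := by rw [← pow_mul, ← pow_mul, mul_comm]
          _ ≤ _ := pow_le_pow_left₀ (by positivity) h4 49
      unfold nu3
      rw [div_le_iff₀ (by positivity)]
      refine hlow.trans ?_
      rw [mul_comm]
      apply mul_le_mul_of_nonneg_left _ (abs_nonneg _)
      exact mul_le_mul_of_nonneg_left h5 (by positivity)
    · refine (nu3_small hk1).trans (le_trans ?_ (neg_le_abs _))
      have h3 : 2 * (s : ℝ) ≤ 3 * k := by exact_mod_cast h2
      nlinarith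
  · refine (nu3_small hk1).trans (le_trans ?_ (le_abs_self _))
    have h3 : 2 * (k : ℝ) ≤ s := by exact_mod_cast h1
    nlinarith

theorem nu3_Nu : Nu 3 nu3 where
  pos _ hx := nu3_pos hx
  le_one _ hx := (nu3_small hx).trans (by norm_num)
  anti _ _ hx hxy := nu3_anti hx hxy
  low := nu3_low

end Pool.Agent.H15.Asc
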