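import Mathlib
import Pool.Agent.H15.Asc.Nu3

set_option autoImplicit false

/-!
The number of elements is at most exponential in the number of ascents: multiplier `3`.
-/

namespace Pool.Agent.H15.Asc

open Finset

theorem log_le_div (z B : ℝ) (hz : 0 < z) (hB : 0 < B) : Real.log z ≤ z / B + Real.log B := by
  have h1 := Real.log_le_sub_one_of_pos (show 0 < z / B by positivity)
  rw [Real.log_div hz.ne' hB.ne'] at h1
  linarith

/-- **Multiplier 3.** -/
theorem main3 : ∃ A C : ℝ, 0 < A ∧ ∀ (b : ℝ) (m : ℕ) (n : ℕ → ℝ) (k l : ℕ → ℕ), Dat 3 b m n k l →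
    (∀ j, 8 * b / n j ≤ nu3 (2 * Dg 3 n j)) →
    Real.log (∑ j ∈ range m, ((k j : ℝ) + l j)) ≤ A * up n m + C + Real.log b := by
  have hG0 : 1 ≤ Gf 3 := by
    unfold Gf
    have := log3_ge
    linarith
  set K0 : ℝ := 16 * Gf 3 ^ 2 * 2 ^ 13 * 172 ^ 49 with hK0
  set K1 : ℝ := 4 * 2 ^ 13 * 86 ^ 49 with hK1
  have hK0p : 1 ≤ K0 := by
    rw [hK0]
    have h1 : (1 : ℝ) ≤ Gf 3 ^ 2 := one_le_pow₀ hG0
    nlinarith
  refine ⟨2 + 102 * Real.log (Gf 3),
    2 * (Real.log K0 + (Real.log K1 + Real.log 3) / 100 + 51 * Real.log 5100),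
    by have := Real.log_nonneg hG0; positivity, ?_⟩
  intro b m n k l h hc
  have hb := h.b1
  have hD1 := h.Dm1
  have hD0 := h.Dg1 0
  have hn0 := h.n1 0
  set P := ∑ j ∈ range m, ((k j : ℝ) + l j) with hP
  have hP1 : 1 ≤ P := by
    have hm1 : (1 : ℝ) ≤ m := by exact_mod_cast h.m1
    have h4 : ∀ i ∈ range m, (1 : ℝ) ≤ (k i : ℝ) + l i := fun i _ => by
      have h5 : (1 : ℝ) ≤ k i := by exact_mod_cast h.k1 i
      have : (0 : ℝ) ≤ l i := Nat.cast_nonneg _
      linarith
    have h5 := Finset.sum_le_sum h4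
    simp at h5
    linarith
  have h1 := h.P_le nu3_Nu hc
  have h2 := h.n_le nu3_Nu
  rw [← hP] at h1 h2
  set D := Dat.Dm 3 n m with hD
  set M : ℝ := (up n m : ℝ) with hM
  have hM0 : 0 ≤ M := Nat.cast_nonneg _
  -- first bound
  have h3 : P ≤ M * K0 * D ^ 51 := by
    unfold nu3 at h1
    rw [mul_one_div, div_le_iff₀ (by positivity)] at h1
    refine h1.trans (le_of_eq ?_)
    rw [hK0]; ring
  have hMpos : 0 < M := by
    rcases hM0.eq_or_lt with h4 | h4
    · rw [← h4] at h3
      simp at h3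
      linarith
    · exact h4
  have hM1 : 1 ≤ M := by
    have : 0 < up n m := by
      rw [hM] at hMpos
      exact_mod_cast hMpos
    rw [hM]; exact_mod_cast this
  -- second bound
  have h4 : n 0 ≤ b * K1 * P ^ 50 := by
    unfold nu3 at h2
    rw [mul_one_div, div_le_iff₀ (by positivity)] at h2
    refine h2.trans (le_of_eq ?_)
    rw [hK1]; ring
  have h5 : Dg 3 n 0 ≤ Real.log b + Real.log K1 + Real.log 3 + 50 * Real.log P := by
    have h6 := Real.log_le_log (by linarith) h4
    rw [Real.log_mul (by positivity) (by positivity), Real.log_mul (by linarith) (by positivity),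
      Real.log_pow] at h6
    unfold Dg
    push_cast at h6
    linarith
  have h6 : Real.log P ≤ Real.log M + Real.log K0 + 51 * Real.log D := by
    have h7 := Real.log_le_log (by linarith) h3
    rw [Real.log_mul (by positivity) (by positivity), Real.log_mul (by positivity) (by positivity),
      Real.log_pow] at h7
    push_cast at h7
    linarith
  have h7 : Real.log D = M * Real.log (Gf 3) + Real.log (Dg 3 n 0) := by
    rw [hD]
    unfold Dat.Dm
    rw [Real.log_mul (by positivity) (by positivity), Real.log_pow]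
  have h8 := log_le_div (Dg 3 n 0) 5100 (by linarith) (by norm_num)
  have h9 : Real.log M ≤ M := by
    have := Real.log_le_sub_one_of_pos hMpos
    linarith
  have hlb : 0 ≤ Real.log b := Real.log_nonneg hb
  have hlP : 0 ≤ Real.log P := Real.log_nonneg hP1
  rw [h7] at h6
  clear_value K0 K1 P D M
  generalize Real.log K0 = c0 at *
  generalize Real.log K1 = c1 at *
  generalize Real.log (Gf 3) = g at *
  generalize Real.log (Dg 3 n 0) = e0 at *
  generalize Dg 3 n 0 = e1 at *
  generalize Real.log P = y at *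
  generalize Real.log M = u at *
  generalize Real.log 5100 = c2 at *
  generalize Real.log b = lb at *
  generalize Real.log 3 = c3 at *
  have e : (2 + 102 * g) * M = 2 * M + 102 * (M * g) := by ring
  rw [e]
  linarith

/-- all elements large -/
theorem cond3 (b : ℝ) : ∃ z0 : ℝ, ∀ z, z0 ≤ z → b / z ≤ nu3 (2 * Real.log z) := by
  have h1 : (fun x : ℝ => Real.log x ^ 49) =o[Filter.atTop] (id : ℝ → ℝ) :=
    Real.isLittleO_pow_log_id_atTop
  have hK : (0 : ℝ) < 1 / ((|b| + 1) * 2 ^ 13 * 172 ^ 49) := by positivity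
  have h2 := h1.bound hK
  rw [Filter.eventually_atTop] at h2
  obtain ⟨z1, hz1⟩ := h2
  refine ⟨max z1 3, fun z hz => ?_⟩
  have hz3 : 3 ≤ z := (le_max_right _ _).trans hz
  have h3 := hz1 z ((le_max_left _ _).trans hz)
  have hl : 1 ≤ Real.log z := log3_ge.trans (Real.log_le_log (by norm_num) hz3)
  rw [Real.norm_of_nonneg (by positivity), id, Real.norm_of_nonneg (by linarith)] at h3
  unfold nu3
  rw [div_le_div_iff₀ (by linarith) (by positivity)]
  rw [one_div, inv_mul_eq_div, le_div_iff₀ (by positivity)] at h3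
  have h4 : b ≤ |b| + 1 := by have := le_abs_self b; linarith
  calc b * (2 ^ 13 * (86 * (2 * Real.log z)) ^ 49)
      ≤ (|b| + 1) * (2 ^ 13 * (86 * (2 * Real.log z)) ^ 49) :=
        mul_le_mul_of_nonneg_right h4 (by positivity)
    _ = Real.log z ^ 49 * ((|b| + 1) * 2 ^ 13 * 172 ^ 49) := by ring
    _ ≤ z := h3
    _ = _ := by ring

end Pool.Agent.H15.Asc
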