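import Mathlib
import Pool.Agent.H15.Asc.Gen
import Pool.Agent.H15.Asc.Main3

set_option autoImplicit false

/-!
The `3x+d` maps.
-/

namespace Pool.Agent.H15.Asc

open Finset

theorem fin3 : ∃ c : ℝ, 0 < c ∧ ∀ d : ℤ, d % 2 = 1 →
    (∃ C : ℝ, ∀ Z : Finset ℤ, IsCycle (T 3 d) Z →
      c * Real.log Z.card ≤ (ascents (T 3 d) Z).card + C) ∧
    ∀ M : ℕ, {Z : Finset ℤ | IsCycle (T 3 d) Z ∧ (ascents (T 3 d) Z).card ≤ M}.Finite := by
  obtain ⟨A, C, hA, hmain⟩ := main3
  refine ⟨1 / A, by positivity, fun d hd => ⟨?_, fun M => ?_⟩⟩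
  · refine asc_ge (q := 3) (C := (C + Real.log |(d : ℝ)|) / A) le_rfl (by norm_num) cond3 hd
      Real.log ?_
    intro m n k l h hc
    have e3 : ((3 : ℤ) : ℝ) = 3 := by norm_num
    rw [e3] at h hc
    have h1 := hmain _ m n k l h hc
    have e : (up n m : ℝ) + (C + Real.log |(d : ℝ)|) / A =
        1 / A * (A * up n m + C + Real.log |(d : ℝ)|) := by
      field_simp
      ring
    rw [e]
    exact mul_le_mul_of_nonneg_left h1 (by positivity)
  · refine asc_fin (q := 3) (ν := nu3) le_rfl (by norm_num) (by exact_mod_cast nu3_Nu) cond3 hd M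
      ⟨Real.exp (A * M + C + Real.log |(d : ℝ)|), ?_⟩
    intro m n k l h hc hM
    have e3 : ((3 : ℤ) : ℝ) = 3 := by norm_num
    rw [e3] at h hc
    have h1 := hmain _ m n k l h hc
    have hMR : (up n m : ℝ) ≤ M := by exact_mod_cast hM
    have h2 : A * up n m ≤ A * M := mul_le_mul_of_nonneg_left hMR hA.le
    have hm1 : (1 : ℝ) ≤ m := by exact_mod_cast h.m1
    have h4 : ∀ i ∈ range m, (1 : ℝ) ≤ (k i : ℝ) + l i := fun i _ => by
      have h5 : (1 : ℝ) ≤ k i := by exact_mod_cast h.k1 i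
      have : (0 : ℝ) ≤ l i := Nat.cast_nonneg _
      linarith
    have h5 := Finset.sum_le_sum h4
    simp at h5
    rw [← Real.log_le_iff_le_exp (by linarith)]
    linarith

end Pool.Agent.H15.Asc
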