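import Mathlib
import Pool.Agent.H15.Asc.Gen
import Pool.Agent.H15.Asc.Main3
import Pool.Agent.H15.LFL.LFL2

set_option autoImplicit false

/-!
The lower bound for `|s log 2 - k log q|`, `q` a prime.
-/

namespace Pool.Agent.H15.Asc

/-- `exp (-C (1 + log x)^2)` -/
noncomputable def nuE (C x : ℝ) : ℝ := Real.exp (-(C * (1 + Real.log x) ^ 2))

theorem nuE_anti {C x y : ℝ} (hC : 0 ≤ C) (hx : 1 ≤ x) (hxy : x ≤ y) : nuE C y ≤ nuE C x := by
  unfold nuE
  apply Real.exp_le_exp.2
  have h1 := Real.log_nonneg hx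
  have h2 := Real.log_le_log (by linarith) hxy
  have h3 : (1 + Real.log x) ^ 2 ≤ (1 + Real.log y) ^ 2 :=
    pow_le_pow_left₀ (by linarith) (by linarith) 2
  nlinarith

theorem nuE_le_one {C x : ℝ} (hC : 0 ≤ C) : nuE C x ≤ 1 := by
  unfold nuE
  rw [Real.exp_le_one_iff]
  have : 0 ≤ C * (1 + Real.log x) ^ 2 := by positivity
  linarith

theorem nuE_low (q : ℕ) (hq : q.Prime) (hq2 : q ≠ 2) : ∃ C : ℝ, 1 ≤ C ∧ ∀ k s : ℕ, 1 ≤ k →
    nuE C k ≤ |(s : ℝ) * Real.log 2 - k * Real.log q| := by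
  have hq3 : 3 ≤ q := by
    have := hq.two_le
    omega
  have hq3R : (3 : ℝ) ≤ q := by exact_mod_cast hq3
  have hlq1 : 1 ≤ Real.log q := log3_ge.trans (Real.log_le_log (by norm_num) hq3R)
  have hlqq : Real.log q ≤ q := by
    have := Real.log_le_sub_one_of_pos (show (0 : ℝ) < q by linarith)
    linarith
  have hl2 := log2_bd
  -- `Y = q`
  set W : ℝ := 16 * (1 + Real.log (1450 * (q : ℝ) ^ 2) + Real.log 16) with hW
  have hlog1450 : 0 ≤ Real.log (1450 * (q : ℝ) ^ 2) := by
    apply Real.log_nonneg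
    nlinarith
  have hlog16 : 0 ≤ Real.log 16 := Real.log_nonneg (by norm_num)
  have hW16 : 16 ≤ W := by rw [hW]; linarith
  refine ⟨20880 * (q : ℝ) ^ 2 * (4 * W ^ 2), by
    have h1 : (1 : ℝ) ≤ (q : ℝ) ^ 2 := by nlinarith
    have h2 : (1 : ℝ) ≤ W ^ 2 := by nlinarith
    nlinarith, fun k s hk => ?_⟩
  have hk1 : (1 : ℝ) ≤ k := by exact_mod_cast hk
  have hlk : 0 ≤ Real.log k := Real.log_nonneg hk1
  have hC0 : (0 : ℝ) ≤ 20880 * (q : ℝ) ^ 2 * (4 * W ^ 2) := by positivity
  rcases Nat.eq_zero_or_pos s with hs0 | hs0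
  · refine (nuE_le_one hC0).trans (le_trans ?_ (neg_le_abs _))
    rw [hs0]
    push_cast
    nlinarith
  rcases Nat.lt_or_ge s (4 * q * k) with hs | hs
  · set L : ℕ := ⌈W * (1 + Real.log k)⌉₊ with hL
    have hL0 : W * (1 + Real.log k) ≤ L := Nat.le_ceil _
    have hWk : 16 ≤ W * (1 + Real.log k) := by nlinarith
    have hL1 : (L : ℝ) ≤ 2 * (W * (1 + Real.log k)) := by
      have h1 : (L : ℝ) < W * (1 + Real.log k) + 1 := Nat.ceil_lt_add_one (by linarith)
      linarith
    have hL16 : (16 : ℝ) ≤ L := hWk.trans hL0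
    have hLpos : (0 : ℝ) < L := by linarith
    have hsR : (s : ℝ) ≤ 4 * q * k := by exact_mod_cast hs.le
    have key := Pool.Agent.H15.LFL.lfl 2 q s k q L Nat.prime_two hq (Ne.symm hq2) hs0 hk
      (by omega) (by
        have : (1 : ℝ) ≤ (L : ℝ) := by linarith
        exact_mod_cast this)
      (by push_cast; linarith [hl2.2]) hlqq (by
        have h1 : Real.log (290 * (q : ℝ) * L * ((s : ℝ) + k)) ≤
            Real.log (1450 * (q : ℝ) ^ 2) + Real.log L + Real.log k := by
          rw [← Real.log_mul (by positivity) (by positivity), ← Real.log_mul (by positivity) (by positivity)]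
          apply Real.log_le_log (by positivity)
          have h2 : (s : ℝ) + k ≤ 5 * q * k := by nlinarith
          calc 290 * (q : ℝ) * L * ((s : ℝ) + k) ≤ 290 * (q : ℝ) * L * (5 * q * k) :=
                mul_le_mul_of_nonneg_left h2 (by positivity)
            _ = 1450 * (q : ℝ) ^ 2 * L * k := by ring
        have h2 := log_le_div (L : ℝ) 16 hLpos (by norm_num)
        have h3 : W * (1 + Real.log k) = 16 + 16 * Real.log (1450 * (q : ℝ) ^ 2) + 16 * Real.log 16 +
            W * Real.log k := by rw [hW]; ring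
        have h4 : 16 * Real.log k ≤ W * Real.log k := mul_le_mul_of_nonneg_right hW16 hlk
        linarith)
    have h1 : |(k : ℝ) * Real.log q - s * Real.log (2 : ℕ)| = |(s : ℝ) * Real.log 2 - k * Real.log q| := by
      rw [abs_sub_comm]; norm_num
    rw [h1] at key
    refine le_trans ?_ key.le
    unfold nuE
    apply Real.exp_le_exp.2
    have h2 : (L : ℝ) ^ 2 ≤ (2 * (W * (1 + Real.log k))) ^ 2 :=
      pow_le_pow_left₀ hLpos.le hL1 2
    have h3 : 20880 * (q : ℝ) ^ 2 * (L : ℝ) ^ 2 ≤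
        20880 * (q : ℝ) ^ 2 * (2 * (W * (1 + Real.log k))) ^ 2 :=
      mul_le_mul_of_nonneg_left h2 (by positivity)
    have h4 : 20880 * (q : ℝ) ^ 2 * (2 * (W * (1 + Real.log k))) ^ 2 =
        20880 * (q : ℝ) ^ 2 * (4 * W ^ 2) * (1 + Real.log k) ^ 2 := by ring
    linarith
  · refine (nuE_le_one hC0).trans (le_trans ?_ (le_abs_self _))
    have h1 : 4 * (q : ℝ) * k ≤ s := by exact_mod_cast hs
    have h2 : 4 * (q : ℝ) * k * Real.log 2 ≤ s * Real.log 2 :=
      mul_le_mul_of_nonneg_right h1 (by linarith [hl2.1])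
    have h3 : (k : ℝ) * Real.log q ≤ k * q := mul_le_mul_of_nonneg_left hlqq (by linarith)
    have h4 : (1 : ℝ) ≤ k * q := by nlinarith
    nlinarith [hl2.1]

theorem nuE_Nu {q : ℕ} {C : ℝ} (hC : 1 ≤ C)
    (h : ∀ k s : ℕ, 1 ≤ k → nuE C k ≤ |(s : ℝ) * Real.log 2 - k * Real.log q|) :
    Nu q (nuE C) where
  pos _ _ := Real.exp_pos _
  le_one _ _ := nuE_le_one (by linarith)
  anti _ _ hx hxy := nuE_anti (by linarith) hx hxy
  low := h

theorem nuE_dec {C : ℝ} (hC : 1 ≤ C) : Dec (nuE C) := by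
  intro K
  have h1 : (fun x : ℝ => Real.log x ^ 2) =o[Filter.atTop] (id : ℝ → ℝ) :=
    Real.isLittleO_pow_log_id_atTop
  have hK : (0 : ℝ) < 1 / (12 * C) := by positivity
  have h2 := h1.bound hK
  rw [Filter.eventually_atTop] at h2
  obtain ⟨z1, hz1⟩ := h2
  refine ⟨Real.exp (max (max z1 1) (2 * Real.log (|K| + 1))), fun z hz => ?_⟩
  have hz0 : 0 < z := (Real.exp_pos _).trans_le hz
  have hw : max (max z1 1) (2 * Real.log (|K| + 1)) ≤ Real.log z := by
    rw [Real.le_log_iff_exp_le hz0]; exact hz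
  set w := Real.log z with hwd
  have hw1 : 1 ≤ w := (le_max_right _ _).trans ((le_max_left _ _).trans hw)
  have hwz : z1 ≤ w := (le_max_left _ _).trans ((le_max_left _ _).trans hw)
  have hwK : 2 * Real.log (|K| + 1) ≤ w := (le_max_right _ _).trans hw
  have h3 := hz1 (6 * w) (by linarith)
  rw [Real.norm_of_nonneg (by positivity), id, Real.norm_of_nonneg (by linarith)] at h3
  -- `1 + log (2 w) ≤ log (6 w)`
  have h4 : 1 + Real.log (2 * w) ≤ Real.log (6 * w) := by
    have h5 : Real.log (6 * w) = Real.log 3 + Real.log (2 * w) := by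
      rw [← Real.log_mul (by norm_num) (by linarith)]; congr 1; ring
    have := log3_ge
    linarith
  have h5 : 0 ≤ Real.log (2 * w) := Real.log_nonneg (by linarith)
  have h6 : (1 + Real.log (2 * w)) ^ 2 ≤ Real.log (6 * w) ^ 2 :=
    pow_le_pow_left₀ (by linarith) h4 2
  have h7 : C * (1 + Real.log (2 * w)) ^ 2 ≤ w / 2 := by
    have h8 : C * (1 + Real.log (2 * w)) ^ 2 ≤ C * (1 / (12 * C) * (6 * w)) :=
      mul_le_mul_of_nonneg_left (h6.trans h3) (by linarith)
    have h9 : C * (1 / (12 * C) * (6 * w)) = w / 2 := by field_simp; ring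
    linarith
  unfold nuE
  have hKp : 0 < |K| + 1 := by positivity
  calc K / z ≤ (|K| + 1) / z := by
        apply div_le_div_of_nonneg_right _ hz0.le
        have := le_abs_self K; linarith
    _ = Real.exp (Real.log (|K| + 1) - w) := by
        rw [Real.exp_sub, Real.exp_log hKp, hwd, Real.exp_log hz0]
    _ ≤ _ := by
        apply Real.exp_le_exp.2
        linarith

end Pool.Agent.H15.Asc
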