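import Mathlib
import Pool.Agent.H15.Asc.NuP

set_option autoImplicit false

/-!
The number of elements against the number of ascents: prime multipliers.
-/

namespace Pool.Agent.H15.Asc

open Finset

theorem mainP (q C : ℝ) (hq : 3 ≤ q) (hC : 1 ≤ C) (hν : Nu q (nuE C)) : ∃ A : ℝ, 0 < A ∧
    ∀ b : ℝ, ∃ C' : ℝ, ∀ (m : ℕ) (n : ℕ → ℝ) (k l : ℕ → ℕ), Dat q b m n k l →
      (∀ j, 8 * b / n j ≤ nuE C (2 * Dg q n j)) →
      Real.sqrt (Real.log (∑ j ∈ range m, ((k j : ℝ) + l j))) ≤ A * up n m + C' := by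
  have hlq : 1 ≤ Real.log q := log3_ge.trans (Real.log_le_log (by norm_num) hq)
  have hG1 : 1 ≤ Gf q := by unfold Gf; linarith
  set g := Real.log (Gf q) with hg
  have hg0 : 0 ≤ g := Real.log_nonneg hG1
  set E : ℝ := 10 + Real.log 16 + 2 * g + 4 * (2 + g) + C * (2 + g) ^ 2 with hE
  have hl16 : 0 ≤ Real.log 16 := Real.log_nonneg (by norm_num)
  have hE1 : 10 ≤ E := by rw [hE]; nlinarith [sq_nonneg (2 + g)]
  refine ⟨2 * E, by positivity, fun b => ?_⟩
  set Cb : ℝ := Real.log (4 * b * q) + 1 + C with hCb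
  refine ⟨2 * E * (1 + Real.log Cb + 2 * Real.log (4 * E)), fun m n k l h hc => ?_⟩
  have hb := h.b1
  have hD1 := h.Dm1
  have hD0 := h.Dg1 0
  have hn0 := h.n1 0
  have hCb2 : 2 ≤ Cb := by
    have : 0 ≤ Real.log (4 * b * q) := Real.log_nonneg (by nlinarith)
    rw [hCb]; linarith
  have hlCb : 0 ≤ Real.log Cb := Real.log_nonneg (by linarith)
  set P := ∑ j ∈ range m, ((k j : ℝ) + l j) with hP
  have hP1 : 1 ≤ P := by
    have hm1 : (1 : ℝ) ≤ m := by exact_mod_cast h.m1
    have h4 : ∀ i ∈ range m, (1 : ℝ) ≤ (k i : ℝ) + l i := fun i _ => by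
      have h5 : (1 : ℝ) ≤ k i := by exact_mod_cast h.k1 i
      have : (0 : ℝ) ≤ l i := Nat.cast_nonneg _
      linarith
    have h5 := Finset.sum_le_sum h4
    simp at h5
    linarith
  have h1 := h.P_le hν hc
  have h2 := h.n_le hν
  rw [← hP] at h1 h2
  set D := Dat.Dm q n m with hD
  set M : ℝ := (up n m : ℝ) with hM
  have hM0 : 0 ≤ M := Nat.cast_nonneg _
  have hMpos : 0 < M := by
    rcases hM0.eq_or_lt with h4 | h4
    · rw [← h4] at h1
      have h5 : 0 < P * nuE C (2 * D) := mul_pos (by linarith) (Real.exp_pos _)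
      simp at h1
      linarith
    · exact h4
  have hM1 : 1 ≤ M := by
    have : 0 < up n m := by
      rw [hM] at hMpos
      exact_mod_cast hMpos
    rw [hM]; exact_mod_cast this
  set y := Real.log P with hy
  have hy0 : 0 ≤ y := Real.log_nonneg hP1
  -- logarithm of the first bound
  have h3 : y ≤ Real.log 16 + Real.log M + 2 * (g + Real.log D) +
      C * (1 + Real.log (2 * D)) ^ 2 := by
    unfold nuE at h1
    have h4 := Real.log_le_log (by
      apply mul_pos (by linarith) (Real.exp_pos _)) h1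
    have hGD : 0 < Gf q * D := by positivity
    have e : Real.log (16 * M * (Gf q * D) ^ 2) =
        Real.log 16 + Real.log M + 2 * (g + Real.log D) := by
      rw [Real.log_mul (by positivity) (by positivity), Real.log_mul (by norm_num) hMpos.ne',
        Real.log_pow, Real.log_mul (by linarith) (by linarith), hg]
      push_cast
      ring
    rw [e, Real.log_mul (by linarith) (Real.exp_pos _).ne', Real.log_exp] at h4
    linarith
  -- logarithm of the second bound
  have h4 : Real.log (n 0) ≤ Real.log (4 * b) + y + C * (1 + y) ^ 2 := by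
    unfold nuE at h2
    have h5 := Real.log_le_log (by
      apply mul_pos (by linarith) (Real.exp_pos _)) h2
    rw [Real.log_mul (by linarith) (Real.exp_pos _).ne', Real.log_exp, Real.log_mul (by positivity)
      (by positivity)] at h5
    linarith
  have h5 : Dg q n 0 ≤ Cb * (1 + y) ^ 2 := by
    have h6 : Real.log (4 * b * q) = Real.log (4 * b) + Real.log q :=
      Real.log_mul (by positivity) (by linarith)
    have h7 : 0 ≤ Real.log (4 * b * q) := Real.log_nonneg (by nlinarith)
    unfold Dg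
    rw [hCb]
    have h8 : (1 : ℝ) ≤ (1 + y) ^ 2 := by nlinarith
    have h9 : y ≤ (1 + y) ^ 2 := by nlinarith
    nlinarith
  have h6 : Real.log (Dg q n 0) ≤ Real.log Cb + 2 * Real.log (1 + y) := by
    have h7 := Real.log_le_log (by linarith) h5
    rw [Real.log_mul (by linarith) (by positivity), Real.log_pow] at h7
    push_cast at h7
    exact h7
  have h7 : Real.log D = M * g + Real.log (Dg q n 0) := by
    rw [hD]
    unfold Dat.Dm
    rw [Real.log_mul (by positivity) (by positivity), Real.log_pow]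
  have hly : 0 ≤ Real.log (1 + y) := Real.log_nonneg (by linarith)
  set R : ℝ := 1 + M + Real.log Cb + Real.log (1 + y) with hR
  have hR1 : 1 ≤ R := by rw [hR]; linarith
  have hMg : M * g ≤ R * g := mul_le_mul_of_nonneg_right (by rw [hR]; linarith) hg0
  have hMg0 : 0 ≤ M * g := by positivity
  have h8 : Real.log D ≤ (2 + g) * R := by
    rw [h7]
    nlinarith
  have hlD : 0 ≤ Real.log D := Real.log_nonneg hD1
  have h9 : 1 + Real.log (2 * D) ≤ (2 + g) * R := by
    rw [Real.log_mul (by norm_num) (by linarith), h7]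
    have hl2 : Real.log 2 ≤ 1 := by have := log2_bd.2; linarith
    nlinarith
  have h10 : 0 ≤ Real.log (2 * D) := Real.log_nonneg (by linarith)
  have h11 : (1 + Real.log (2 * D)) ^ 2 ≤ ((2 + g) * R) ^ 2 :=
    pow_le_pow_left₀ (by linarith) h9 2
  have h12 : Real.log M ≤ R := by
    have := Real.log_le_sub_one_of_pos hMpos
    rw [hR]; linarith
  have h13 : 1 + y ≤ (E * R) ^ 2 := by
    have hRR : R ≤ R ^ 2 := by nlinarith
    have h14 : C * (1 + Real.log (2 * D)) ^ 2 ≤ C * (2 + g) ^ 2 * R ^ 2 := by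
      have := mul_le_mul_of_nonneg_left h11 (by linarith : 0 ≤ C)
      calc C * (1 + Real.log (2 * D)) ^ 2 ≤ C * ((2 + g) * R) ^ 2 := this
        _ = _ := by ring
    have h15 : 2 * (g + Real.log D) ≤ (2 * g + 2 * (2 + g)) * R ^ 2 := by
      have e1 : g ≤ g * R ^ 2 := by nlinarith
      have e2 : Real.log D ≤ (2 + g) * R ^ 2 := by nlinarith
      nlinarith
    have h16 : 1 + Real.log 16 + Real.log M ≤ (2 + Real.log 16) * R ^ 2 := by nlinarith
    have h17 : 1 + y ≤ E * R ^ 2 := by
      have e3 : E * R ^ 2 = (2 + Real.log 16) * R ^ 2 + (2 * g + 2 * (2 + g)) * R ^ 2 +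
        C * (2 + g) ^ 2 * R ^ 2 + (8 + 2 * (2 + g)) * R ^ 2 := by rw [hE]; ring
      have e4 : 0 ≤ (8 + 2 * (2 + g)) * R ^ 2 := by positivity
      rw [e3]
      linarith
    have h18 : E * R ^ 2 ≤ (E * R) ^ 2 := by
      have : (E * R) ^ 2 = E * (E * R ^ 2) := by ring
      rw [this]
      have : 0 ≤ E * R ^ 2 := by positivity
      nlinarith
    linarith
  -- the square root
  set r := Real.sqrt (1 + y) with hr
  have hr1 : 1 ≤ r := by rw [hr]; exact Real.one_le_sqrt.2 (by linarith)
  have h14 : r ≤ E * R := by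
    rw [hr]
    exact Real.sqrt_le_iff.2 ⟨by positivity, h13⟩
  have h15 : Real.log (1 + y) = 2 * Real.log r := by
    have h16 : 1 + y = r ^ 2 := by rw [hr, Real.sq_sqrt (by linarith)]
    rw [h16, Real.log_pow]; norm_num
  have h16 := log_le_div r (4 * E) (by linarith) (by linarith)
  have h17 : E * Real.log (1 + y) ≤ r / 2 + 2 * E * Real.log (4 * E) := by
    rw [h15]
    have h18 : E * (2 * Real.log r) ≤ E * (2 * (r / (4 * E) + Real.log (4 * E))) :=
      mul_le_mul_of_nonneg_left (by linarith) (by linarith)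
    refine h18.trans (le_of_eq ?_)
    field_simp
    ring
  have h18 : E * R = E * (1 + M + Real.log Cb) + E * Real.log (1 + y) := by rw [hR]; ring
  have h19 : Real.sqrt y ≤ r := by
    rw [hr]; exact Real.sqrt_le_sqrt (by linarith)
  have h20 : 2 * E * M + 2 * E * (1 + Real.log Cb + 2 * Real.log (4 * E)) =
      2 * (E * (1 + M + Real.log Cb)) + 2 * (2 * E * Real.log (4 * E)) := by ring
  rw [h20]
  linarith

end Pool.Agent.H15.Asc
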