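import Mathlib
import Pool.Agent.H15.Asc.MainP

set_option autoImplicit false

/-!
The `qx+d` maps, `q` an odd prime.
-/

namespace Pool.Agent.H15.Asc

open Finset

theorem finP (q : ℕ) (hq : q.Prime) (hq2 : q ≠ 2) : ∃ c : ℝ, 0 < c ∧ ∀ d : ℤ, d % 2 = 1 →
    (∃ C : ℝ, ∀ Z : Finset ℤ, IsCycle (T q d) Z →
      c * Real.sqrt (Real.log Z.card) ≤ (ascents (T q d) Z).card + C) ∧
    ∀ M : ℕ, {Z : Finset ℤ | IsCycle (T q d) Z ∧ (ascents (T q d) Z).card ≤ M}.Finite := by
  obtain ⟨C0, hC0, hlow⟩ := nuE_low q hq hq2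
  have hν := nuE_Nu hC0 hlow
  have hq3 : 3 ≤ q := by
    have := hq.two_le
    omega
  have hq3R : (3 : ℝ) ≤ q := by exact_mod_cast hq3
  have hqodd : (q : ℤ) % 2 = 1 := by
    rcases hq.eq_two_or_odd with h | h
    · exact absurd h hq2
    · omega
  have hcast : (((q : ℤ) : ℝ)) = (q : ℝ) := by norm_cast
  obtain ⟨A, hA, hmain⟩ := mainP q C0 hq3R hC0 hν
  refine ⟨1 / A, by positivity, fun d hd => ?_⟩
  obtain ⟨C, hC⟩ := hmain |(d : ℝ)|
  refine ⟨?_, fun M => ?_⟩
  · refine asc_ge (q := q) (C := C / A) (by omega) hqodd (nuE_dec hC0) hd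
      (fun x => Real.sqrt (Real.log x)) ?_
    intro m n k l h hc
    rw [hcast] at h hc
    have h1 := hC m n k l h hc
    have e : (up n m : ℝ) + C / A = 1 / A * (A * up n m + C) := by
      field_simp
    rw [e]
    exact mul_le_mul_of_nonneg_left h1 (by positivity)
  · refine asc_fin (q := q) (ν := nuE C0) (by omega) hqodd (by rw [hcast]; exact hν) (nuE_dec hC0) hd M
      ⟨Real.exp ((A * M + C) ^ 2), ?_⟩
    intro m n k l h hc hM
    rw [hcast] at h hc
    have h1 := hC m n k l h hc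
    have hMR : (up n m : ℝ) ≤ M := by exact_mod_cast hM
    have h2 : A * up n m ≤ A * M := mul_le_mul_of_nonneg_left hMR hA.le
    have hm1 : (1 : ℝ) ≤ m := by exact_mod_cast h.m1
    have h4 : ∀ i ∈ range m, (1 : ℝ) ≤ (k i : ℝ) + l i := fun i _ => by
      have h5 : (1 : ℝ) ≤ k i := by exact_mod_cast h.k1 i
      have : (0 : ℝ) ≤ l i := Nat.cast_nonneg _
      linarith
    have h5 := Finset.sum_le_sum h4
    simp at h5
    rw [← Real.log_le_iff_le_exp (by linarith)]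
    have h6 : Real.sqrt (Real.log (∑ j ∈ range m, ((k j : ℝ) + l j))) ≤ A * M + C := by linarith
    have h7 : 0 ≤ Real.log (∑ j ∈ range m, ((k j : ℝ) + l j)) := Real.log_nonneg (by linarith)
    calc Real.log (∑ j ∈ range m, ((k j : ℝ) + l j)) =
        Real.sqrt (Real.log (∑ j ∈ range m, ((k j : ℝ) + l j))) ^ 2 := (Real.sq_sqrt h7).symm
      _ ≤ _ := pow_le_pow_left₀ (Real.sqrt_nonneg _) h6 2

end Pool.Agent.H15.Asc
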